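import Mathlib
import Pool.Agent.H530R2.LinAlg
import Pool.Agent.W824.BJ.Drop

/-!
# Linear algebra: pairs of linear maps with dependent values
-/

set_option autoImplicit false

namespace Pool.Agent.Y530.BB

open Finset Module Pool.Agent.W824.BJ

section cl

variable {k U W : Type*} [Field k] [AddCommGroup U] [Module k U] [AddCommGroup W] [Module k W]

variable (k) in
/-- two independent vectors -/
def I2 (a b : W) : Prop := ∀ s t : k, s • a + t • b = 0 → s = 0 ∧ t = 0

variable (k) in
/-- three independent vectors -/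
def I3 (a b c : W) : Prop :=
  ∀ s t r : k, s • a + t • b + r • c = 0 → s = 0 ∧ t = 0 ∧ r = 0

theorem I2.left {a b : W} (h : I2 k a b) : a ≠ 0 := by
  rintro rfl
  have := h 1 0 (by simp)
  exact one_ne_zero this.1

theorem I2.right {a b : W} (h : I2 k a b) : b ≠ 0 := by
  rintro rfl
  have := h 0 1 (by simp)
  exact one_ne_zero this.2

theorem I3.tail {a b c : W} (h : I3 k a b c) : I2 k b c := by
  intro s t hs
  have := h 0 s t (by simpa using hs)
  exact this.2

theorem I3.third {a b c : W} (h : I3 k a b c) : c ≠ 0 := h.tail.right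

theorem dep_left {a b : W} (h : ¬ I2 k a b) (hb : b ≠ 0) : ∃ c : k, a = c • b := by
  unfold I2 at h
  push Not at h
  obtain ⟨s, t, h1, h2⟩ := h
  have hs : s ≠ 0 := by
    intro hs
    have ht := h2 hs
    rw [hs, zero_smul, zero_add] at h1
    rcases smul_eq_zero.1 h1 with h3 | h3
    · exact ht h3
    · exact hb h3
  refine ⟨-(t / s), ?_⟩
  have h3 : s • (a - -(t / s) • b) = 0 := by
    rw [smul_sub, smul_smul]
    have : s * -(t / s) = -t := by field_simp
    rw [this, neg_smul, sub_neg_eq_add]
    exact h1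
  exact sub_eq_zero.1 ((smul_eq_zero.1 h3).resolve_left hs)

theorem I2.symm {a b : W} (h : I2 k a b) : I2 k b a := by
  intro s t hs
  have := h t s (by rw [add_comm]; exact hs)
  exact ⟨this.2, this.1⟩

theorem dep_right {a b : W} (h : ¬ I2 k a b) (ha : a ≠ 0) : ∃ c : k, b = c • a :=
  dep_left (fun h' => h h'.symm) ha

/-- **The lemma on pairs of linear maps.** -/
theorem cl2 (A A' : U →ₗ[k] W) (h : ∀ x, ¬ I2 k (A x) (A' x)) {x0 x1 : U}
    (h01 : I2 k (A x0) (A' x1)) : ∃ c : k, c ≠ 0 ∧ ∀ x, A x = c • A' x := by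
  obtain ⟨c, hc⟩ := dep_left (h x1) h01.right
  obtain ⟨c', hc'⟩ := dep_right (h x0) h01.left
  have h1 := h (x0 + x1)
  rw [map_add, map_add, hc, hc'] at h1
  unfold I2 at h1
  push Not at h1
  obtain ⟨s, t, h2, h3⟩ := h1
  have h4 : (s + t * c') • A x0 + (s * c + t) • A' x1 = 0 := by
    rw [← h2]
    module
  obtain ⟨h5, h6⟩ := h01 _ _ h4
  have ht : t ≠ 0 := by
    intro ht
    rw [ht, zero_mul, add_zero] at h5
    exact h3 h5 ht
  have hcc : c * c' = 1 := by
    have h7 : t * (1 - c * c') = 0 := by linear_combination h6 - c * h5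
    have := (mul_eq_zero.1 h7).resolve_left ht
    linear_combination -this
  have hc0 : c ≠ 0 := by
    rintro rfl
    rw [zero_mul] at hcc
    exact zero_ne_one hcc
  have hx0 : A x0 = c • A' x0 := by
    rw [hc', smul_smul, hcc, one_smul]
  refine ⟨c, hc0, fun x => ?_⟩
  by_contra hx
  have hne : A x - c • A' x ≠ 0 := fun h' => hx (sub_eq_zero.1 h')
  have key : ∀ y, A y - c • A' y = A x - c • A' x → ∃ α : k, A' y = α • (A x - c • A' x) := by
    intro y hy
    apply dep_right (a := A x - c • A' x) _ hne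
    intro h7
    apply h y
    intro s t hst
    have h8 := h7 s (t + s * c) (by
      rw [← hy, ← hst]
      module)
    refine ⟨h8.1, ?_⟩
    have h9 := h8.2
    rw [h8.1, zero_mul, add_zero] at h9
    exact h9
  obtain ⟨α, hα⟩ := key x rfl
  obtain ⟨γ, hγ⟩ := key (x + x0) (by rw [map_add, map_add, hx0]; module)
  obtain ⟨δ, hδ⟩ := key (x + x1) (by rw [map_add, map_add, hc]; module)
  set w := A x - c • A' x with hw
  have e0 : A' x0 = (γ - α) • w := by
    rw [map_add, hα] at hγ
    rw [sub_smul, ← hγ]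
    abel
  have e1 : A' x1 = (δ - α) • w := by
    rw [map_add, hα] at hδ
    rw [sub_smul, ← hδ]
    abel
  have h7 := h01 (δ - α) (-(c * (γ - α))) (by
    rw [hx0, e0, e1]
    module)
  rw [h7.1, zero_smul] at e1
  exact h01.right e1

/-- the same modulo a vector -/
theorem cl3 (A A' : U →ₗ[k] W) (e : W) (h : ∀ x, ¬ I3 k (A x) (A' x) e) {x0 x1 : U}
    (h01 : I3 k (A x0) (A' x1) e) :
    ∃ c : k, c ≠ 0 ∧ ∀ x, ∃ d : k, A x = c • A' x + d • e := by
  have he : e ≠ 0 := h01.third
  set S := Submodule.span k {e} with hS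
  have tr : ∀ a b : W, I2 k (S.mkQ a) (S.mkQ b) ↔ I3 k a b e := by
    intro a b
    constructor
    · intro h1 s t r hr
      have h2 : s • S.mkQ a + t • S.mkQ b = 0 := by
        have h3 := congrArg S.mkQ hr
        rw [map_add, map_add, map_smul, map_smul, map_zero] at h3
        have h4 : S.mkQ (r • e) = 0 := by
          rw [← LinearMap.mem_ker, Submodule.ker_mkQ]
          exact Submodule.smul_mem _ _ (Submodule.mem_span_singleton_self e)
        rw [h4, add_zero] at h3
        exact h3
      obtain ⟨h5, h6⟩ := h1 _ _ h2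
      refine ⟨h5, h6, ?_⟩
      rw [h5, h6, zero_smul, zero_smul, zero_add, zero_add] at hr
      exact (smul_eq_zero.1 hr).resolve_right he
    · intro h1 s t hst
      have h2 : s • a + t • b ∈ S := by
        rw [← Submodule.ker_mkQ S, LinearMap.mem_ker, map_add, map_smul, map_smul]
        exact hst
      obtain ⟨r, hr⟩ := Submodule.mem_span_singleton.1 h2
      have h3 := h1 s t (-r) (by rw [neg_smul, hr]; abel)
      exact ⟨h3.1, h3.2.1⟩
  obtain ⟨c, hc, h1⟩ := cl2 (S.mkQ ∘ₗ A) (S.mkQ ∘ₗ A') (fun x h' => h x ((tr _ _).1 h'))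
    ((tr _ _).2 h01)
  refine ⟨c, hc, fun x => ?_⟩
  have h2 : A x - c • A' x ∈ S := by
    rw [← Submodule.ker_mkQ S, LinearMap.mem_ker, map_sub, map_smul, sub_eq_zero]
    exact h1 x
  obtain ⟨d, hd⟩ := Submodule.mem_span_singleton.1 h2
  exact ⟨d, by rw [hd]; abel⟩

end cl

section li

variable {k M : Type*} [Field k] [AddCommGroup M] [Module k M]

theorem li3_iff {W : Type*} [AddCommGroup W] [Module k W] (a b c : W) :
    LinearIndependent k ![a, b, c] ↔ I3 k a b c := by
  rw [Fintype.linearIndependent_iff]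
  constructor
  · intro h s t r hs
    have := h ![s, t, r] (by simpa [Fin.sum_univ_three] using hs)
    exact ⟨this 0, this 1, this 2⟩
  · intro h g hg i
    have := h (g 0) (g 1) (g 2) (by simpa [Fin.sum_univ_three] using hg)
    fin_cases i
    · exact this.1
    · exact this.2.1
    · exact this.2.2

theorem li2_iff {W : Type*} [AddCommGroup W] [Module k W] (a b : W) :
    LinearIndependent k ![a, b] ↔ I2 k a b := by
  rw [Fintype.linearIndependent_iff]
  constructor
  · intro h s t hs
    have := h ![s, t] (by simpa [Fin.sum_univ_two] using hs)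
    exact ⟨this 0, this 1⟩
  · intro h g hg i
    have := h (g 0) (g 1) (by simpa [Fin.sum_univ_two] using hg)
    fin_cases i
    · exact this.1
    · exact this.2

/-- independent functionals have a nonvanishing determinant -/
theorem det_of_li [FiniteDimensional k M] {r : ℕ} (a : Fin r → M →ₗ[k] k)
    (h : LinearIndependent k a) :
    ∃ v : Fin r → M, (Matrix.of fun i l => a i (v l)).det ≠ 0 := by
  let b := Module.finBasis k M
  let T : (M →ₗ[k] k) →ₗ[k] (Fin (finrank k M) → k) :=
    { toFun := fun f j => f (b j)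
      map_add' := fun _ _ => rfl
      map_smul' := fun _ _ => rfl }
  have hT : LinearMap.ker T = ⊥ := by
    rw [LinearMap.ker_eq_bot']
    intro f hf
    exact b.ext fun j => congrFun hf j
  have h1 : LinearIndependent k (T ∘ a) := h.map' T hT
  obtain ⟨g, hg⟩ := Pool.Agent.H530R2.exists_minor_ne_zero (T ∘ a) h1
  exact ⟨fun l => b (g l), hg⟩

theorem li_of_det {r : ℕ} (a : Fin r → M →ₗ[k] k) (v : Fin r → M)
    (h : (Matrix.of fun i l => a i (v l)).det ≠ 0) : LinearIndependent k a := by
  let T : (M →ₗ[k] k) →ₗ[k] (Fin r → k) :=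
    { toFun := fun f j => f (v j)
      map_add' := fun _ _ => rfl
      map_smul' := fun _ _ => rfl }
  apply LinearIndependent.of_comp T
  exact Matrix.linearIndependent_rows_of_det_ne_zero h

theorem dim_of_li [FiniteDimensional k M] {r : ℕ} (a : Fin r → M →ₗ[k] k)
    (h : LinearIndependent k a) :
    finrank k (LinearMap.ker (LinearMap.pi a)) + r = finrank k M := by
  obtain ⟨v, hv⟩ := det_of_li a h
  apply surj_of_det (LinearMap.pi a) v
  rw [← Matrix.det_transpose] at hv
  exact hv

theorem li_of_dim [FiniteDimensional k M] {r : ℕ} (a : Fin r → M →ₗ[k] k)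
    (h : finrank k (LinearMap.ker (LinearMap.pi a)) + r ≤ finrank k M) :
    LinearIndependent k a := by
  have h1 := LinearMap.finrank_range_add_finrank_ker (LinearMap.pi a)
  have h2 : LinearMap.range (LinearMap.pi a) = ⊤ := by
    apply Submodule.eq_top_of_finrank_eq
    have h3 := Submodule.finrank_le (LinearMap.range (LinearMap.pi a))
    rw [finrank_fin_fun] at h3 ⊢
    omega
  classical
  rw [Fintype.linearIndependent_iff]
  intro g hg i
  obtain ⟨n, hn⟩ := LinearMap.range_eq_top.1 h2 (Pi.single i 1)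
  have h4 := congrArg (fun f : M →ₗ[k] k => f n) hg
  simp only [LinearMap.sum_apply, LinearMap.smul_apply, LinearMap.zero_apply] at h4
  have h5 : ∀ j, a j n = (Pi.single i 1 : Fin r → k) j := fun j => congrFun hn j
  simp only [h5, smul_eq_mul] at h4
  rw [Finset.sum_eq_single i] at h4
  · simpa using h4
  · intro j _ hj
    rw [Pi.single_eq_of_ne hj, mul_zero]
  · intro h6
    exact absurd (Finset.mem_univ i) h6

theorem fin_ker {N : Type*} [AddCommGroup N] [Module k N] (M : Submodule k N) {r : ℕ}
    (a : Fin r → N →ₗ[k] k) :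
    finrank k (LinearMap.ker (LinearMap.pi fun i => a i ∘ₗ M.subtype)) =
      finrank k ↥(M ⊓ LinearMap.ker (LinearMap.pi a)) := by
  have h2 : (LinearMap.ker (LinearMap.pi fun i => a i ∘ₗ M.subtype)).map M.subtype =
      M ⊓ LinearMap.ker (LinearMap.pi a) := by
    have h3 : (LinearMap.pi fun i => a i ∘ₗ M.subtype) = LinearMap.pi a ∘ₗ M.subtype := by
      ext n i
      rfl
    rw [h3, LinearMap.ker_comp, Submodule.map_comap_subtype]
  have h3 := Submodule.finrank_map_subtype_eq M
    (LinearMap.ker (LinearMap.pi fun i => a i ∘ₗ M.subtype))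
  rw [h2] at h3
  exact h3.symm

end li

section poly

variable {k : Type*} [Field k]

/-- polynomial functions -/
def PolyF (f : k → k) : Prop := ∃ p : Polynomial k, ∀ t, p.eval t = f t

theorem PolyF.det {r : ℕ} {A : k → Matrix (Fin r) (Fin r) k} (h : ∀ i j, PolyF fun t => A t i j) :
    PolyF fun t => (A t).det := by
  choose P hP using h
  refine ⟨(Matrix.of fun i j => P i j).det, fun t => ?_⟩
  have h1 := RingHom.map_det (Polynomial.evalRingHom t) (Matrix.of fun i j => P i j)
  rw [Polynomial.coe_evalRingHom] at h1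
  rw [h1]
  congr 1
  ext i j
  exact hP i j t

theorem polyF_pr (c : Fin 6 → k) (X X' Y Y' : Fin 4 → k) :
    PolyF fun t => pr c (X + t • X') (Y + t • Y') := by
  refine ⟨Polynomial.C (pr c X Y) + Polynomial.C (pr c X Y' + pr c X' Y) * Polynomial.X +
    Polynomial.C (pr c X' Y') * Polynomial.X ^ 2, fun t => ?_⟩
  simp only [Polynomial.eval_add, Polynomial.eval_mul, Polynomial.eval_C, Polynomial.eval_X,
    Polynomial.eval_pow, pr_add_left, pr_add_right, pr_smul_left, pr_smul_right]
  ring

theorem polyF_pr0 (c : Fin 6 → k) (X Y Y' : Fin 4 → k) :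
    PolyF fun t => pr c X (Y + t • Y') := by
  obtain ⟨p, hp⟩ := polyF_pr c X 0 Y Y'
  refine ⟨p, fun t => ?_⟩
  have h := hp t
  simp only [smul_zero, add_zero] at h
  exact h

theorem polyprod [Infinite k] {f g : k → k} (hf : PolyF f) (hg : PolyF g)
    (h : ∀ t, f t ≠ 0 → g t = 0) {t0 t1 : k} (h0 : f t0 ≠ 0) : g t1 = 0 := by
  obtain ⟨p, hp⟩ := hf
  obtain ⟨q, hq⟩ := hg
  have h1 : p * q = 0 := by
    apply Polynomial.funext
    intro t
    rw [Polynomial.eval_mul, hp, hq, Polynomial.eval_zero]
    by_cases h2 : f t = 0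
    · rw [h2, zero_mul]
    · rw [h t h2, mul_zero]
  rcases mul_eq_zero.1 h1 with h2 | h2
  · exfalso
    apply h0
    rw [← hp, h2, Polynomial.eval_zero]
  · rw [← hq, h2, Polynomial.eval_zero]

/-- a family which is dependent whenever another one is independent -/
theorem polyLI [Infinite k] {M : Type*} [AddCommGroup M] [Module k M] [FiniteDimensional k M]
    {r s : ℕ} (a : k → Fin r → M →ₗ[k] k) (b : k → Fin s → M →ₗ[k] k)
    (ha : ∀ i n, PolyF fun t => a t i n) (hb : ∀ i n, PolyF fun t => b t i n) {t0 t1 : k}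
    (h0 : LinearIndependent k (a t0))
    (h : ∀ t, LinearIndependent k (a t) → ¬ LinearIndependent k (b t)) :
    ¬ LinearIndependent k (b t1) := by
  intro h1
  obtain ⟨w, hw⟩ := det_of_li (a t0) h0
  obtain ⟨v, hv⟩ := det_of_li (b t1) h1
  have hf : PolyF fun t : k => (Matrix.of fun i l => a t i (w l)).det :=
    PolyF.det fun i l => ha i (w l)
  have hg : PolyF fun t : k => (Matrix.of fun i l => b t i (v l)).det :=
    PolyF.det fun i l => hb i (v l)
  apply hv
  refine polyprod hf hg (t0 := t0) (t1 := t1) ?_ hw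
  intro t ht
  by_contra hgt
  exact h t (li_of_det _ _ ht) (li_of_det _ _ hgt)

end poly

end Pool.Agent.Y530.BB
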