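import Mathlib
import Pool.Agent.Y530.BB.CL

/-!
# Functionals of the form `n ↦ ξᵀ (D n) η` with `D n` skew-symmetric
-/

set_option autoImplicit false

namespace Pool.Agent.Y530.BB

open Finset Module Pool.Agent.W824.BJ

variable {k M : Type*} [Field k] [AddCommGroup M] [Module k M]

/-- the functional `n ↦ ξᵀ (D n) η` -/
def fn (D : M →ₗ[k] (Fin 6 → k)) (ξ η : Fin 4 → k) : M →ₗ[k] k := prL ξ η ∘ₗ D

theorem fn_apply (D : M →ₗ[k] (Fin 6 → k)) (ξ η : Fin 4 → k) (n : M) :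
    fn D ξ η n = pr (D n) ξ η := rfl

theorem fn_self (D : M →ₗ[k] (Fin 6 → k)) (ξ : Fin 4 → k) : fn D ξ ξ = 0 :=
  LinearMap.ext fun n => pr_self (D n) ξ

theorem fn_swap (D : M →ₗ[k] (Fin 6 → k)) (ξ η : Fin 4 → k) : fn D η ξ = - fn D ξ η :=
  LinearMap.ext fun n => pr_swap (D n) ξ η

theorem fn_add_left (D : M →ₗ[k] (Fin 6 → k)) (ξ ξ' η : Fin 4 → k) :
    fn D (ξ + ξ') η = fn D ξ η + fn D ξ' η :=
  LinearMap.ext fun n => pr_add_left (D n) ξ ξ' η

theorem fn_add_right (D : M →ₗ[k] (Fin 6 → k)) (ξ η η' : Fin 4 → k) :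
    fn D ξ (η + η') = fn D ξ η + fn D ξ η' :=
  LinearMap.ext fun n => pr_add_right (D n) ξ η η'

theorem fn_smul_left (D : M →ₗ[k] (Fin 6 → k)) (a : k) (ξ η : Fin 4 → k) :
    fn D (a • ξ) η = a • fn D ξ η :=
  LinearMap.ext fun n => pr_smul_left a (D n) ξ η

/-- the functional as a linear map of the first vector -/
def fnL (D : M →ₗ[k] (Fin 6 → k)) (η : Fin 4 → k) : (Fin 4 → k) →ₗ[k] (M →ₗ[k] k) where
  toFun ξ := fn D ξ η
  map_add' ξ ξ' := fn_add_left D ξ ξ' η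
  map_smul' a ξ := fn_smul_left D a ξ η

theorem fnL_apply (D : M →ₗ[k] (Fin 6 → k)) (ξ η : Fin 4 → k) : fnL D η ξ = fn D ξ η := rfl

/-- the last but one bar of a path -/
theorem pathA (D Φ : M →ₗ[k] (Fin 6 → k)) (ζ ξ0 : Fin 4 → k) (n : M)
    (h1 : pr (Φ n) ξ0 ζ = 0) (h2 : D n ≠ 0) (h3 : fn Φ ξ0 ζ ≠ 0)
    (h : ∀ ξ η, ¬ I2 k (fn D ξ η) (fn Φ ξ ζ)) : False := by
  have hG : ∀ η, (∃ ξ', pr (D n) ξ' η ≠ 0) → fn Φ η ζ = 0 := by
    rintro η ⟨ξ', hξ⟩
    have h01 : I2 k (fnL D η ξ') (fnL Φ ζ ξ0) := by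
      intro s t hst
      have h4 := congrArg (fun f : M →ₗ[k] k => f n) hst
      simp only [fnL_apply, LinearMap.add_apply, LinearMap.smul_apply, fn_apply, h1, smul_eq_mul,
        mul_zero, add_zero, LinearMap.zero_apply] at h4
      have hs : s = 0 := (mul_eq_zero.1 h4).resolve_right hξ
      refine ⟨hs, ?_⟩
      rw [hs, zero_smul, zero_add] at hst
      exact (smul_eq_zero.1 hst).resolve_right h3
    obtain ⟨c, hc, h5⟩ := cl2 (fnL D η) (fnL Φ ζ) (fun x => h x η) h01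
    have h6 := h5 η
    rw [fnL_apply, fnL_apply, fn_self] at h6
    exact (smul_eq_zero.1 h6.symm).resolve_left hc
  have hex : ∃ η0 ξ', pr (D n) ξ' η0 ≠ 0 := by
    by_contra hcon
    push Not at hcon
    exact h2 (eq_zero_of_pr fun X Y => hcon Y X)
  obtain ⟨η0, ξ', h0⟩ := hex
  apply h3
  by_cases hg : ∃ ξ', pr (D n) ξ' ξ0 ≠ 0
  · exact hG _ hg
  · push Not at hg
    have h4 := hG (ξ0 + η0) ⟨ξ', by rw [pr_add_right, hg, zero_add]; exact h0⟩
    rw [fn_add_left, hG η0 ⟨ξ', h0⟩, add_zero] at h4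
    exact h4

/-- a relation which holds on the independent triples extends to all vectors -/
theorem cycA [Infinite k] [FiniteDimensional k M] (D Φ E : M →ₗ[k] (Fin 6 → k))
    (ξ0 ξ1 η0 η1 ζ0 ζ1 υ0 υ1 : Fin 4 → k)
    (h3 : I3 k (fn D ξ0 η0) (fn Φ ξ1 ζ0) (fn E η0 υ0))
    (hall : ∀ (t : k) (ξ : Fin 4 → k), ¬ I3 k (fn D ξ (η0 + t • η1)) (fn Φ ξ (ζ0 + t • ζ1))
      (fn E (η0 + t • η1) (υ0 + t • υ1))) :
    ¬ I2 k (fn Φ (η0 + η1) (ζ0 + ζ1)) (fn E (η0 + η1) (υ0 + υ1)) := by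
  have h := polyLI (t0 := 0) (t1 := 1)
    (fun t : k => ![fn D ξ0 (η0 + t • η1), fn Φ ξ1 (ζ0 + t • ζ1),
      fn E (η0 + t • η1) (υ0 + t • υ1)])
    (fun t : k => ![fn Φ (η0 + t • η1) (ζ0 + t • ζ1), fn E (η0 + t • η1) (υ0 + t • υ1)])
    (by
      intro i n
      fin_cases i
      · exact polyF_pr0 (D n) ξ0 η0 η1
      · exact polyF_pr0 (Φ n) ξ1 ζ0 ζ1
      · exact polyF_pr (E n) η0 η1 υ0 υ1)
    (by
      intro i n
      fin_cases i
      · exact polyF_pr (Φ n) η0 η1 ζ0 ζ1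
      · exact polyF_pr (E n) η0 η1 υ0 υ1)
    (by
      rw [li3_iff]
      simp only [zero_smul, add_zero]
      exact h3)
    (by
      intro t ht hgt
      have i3 := (li3_iff _ _ _).1 ht
      have i2 := (li2_iff _ _).1 hgt
      obtain ⟨c, hc, h5⟩ := cl3 (fnL D (η0 + t • η1)) (fnL Φ (ζ0 + t • ζ1))
        (fn E (η0 + t • η1) (υ0 + t • υ1)) (fun x => hall t x) i3
      obtain ⟨d, hd⟩ := h5 (η0 + t • η1)
      rw [fnL_apply, fnL_apply, fn_self] at hd
      exact hc (i2 c d hd.symm).1)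
  rw [li2_iff] at h
  simp only [one_smul] at h
  exact h

/-- the last bar of a cycle of length at least four -/
theorem cycLong [Infinite k] [FiniteDimensional k M] (D Φ E : M →ₗ[k] (Fin 6 → k))
    (ξ0 ξ1 η0 ζ υ : Fin 4 → k) (hζυ : I2 k ζ υ)
    (h3 : I3 k (fn D ξ0 η0) (fn Φ ξ1 ζ) (fn E η0 υ))
    (hall : ∀ ξ η, ¬ I3 k (fn D ξ η) (fn Φ ξ ζ) (fn E η υ)) : False := by
  have hP : ∀ η, ¬ I2 k (fn Φ η ζ) (fn E η υ) := by
    intro η
    have h := cycA D Φ E ξ0 ξ1 η0 (η - η0) ζ 0 υ 0 h3 (fun t ξ => by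
      rw [smul_zero, add_zero, add_zero]
      exact hall _ _)
    rw [add_sub_cancel, add_zero, add_zero] at h
    exact h
  obtain ⟨lam, hl, h4⟩ := cl2 (fnL Φ ζ) (fnL E υ) (x0 := ξ1) (x1 := η0) hP h3.tail
  obtain ⟨c, hc, h5⟩ := cl3 (fnL D η0) (fnL Φ ζ) (fn E η0 υ) (fun x => hall x η0) h3
  obtain ⟨d, hd⟩ := h5 ξ0
  have hζ : fnL E υ ζ = 0 := by
    have := h4 ζ
    rw [fnL_apply, fn_self] at this
    exact (smul_eq_zero.1 this.symm).resolve_left hl
  have hυ : fnL E υ υ = 0 := by rw [fnL_apply, fn_self]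
  have hli : LinearIndependent k ![ξ0, ξ1, η0, ζ, υ] := by
    rw [Fintype.linearIndependent_iff]
    intro g hg
    have h6 : g 0 • ξ0 + g 1 • ξ1 + g 2 • η0 + g 3 • ζ + g 4 • υ = 0 := by
      rw [← hg, Fin.sum_univ_five]
      rfl
    have h7 := congrArg (fnL E υ) h6
    simp only [map_add, map_smul, map_zero, hζ, hυ, smul_zero, add_zero] at h7
    have e1 : fn D ξ0 η0 = (c * lam) • fnL E υ ξ0 + d • fnL E υ η0 := by
      have h8 : fn D ξ0 η0 = c • fnL Φ ζ ξ0 + d • fn E η0 υ := hd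
      rw [h8, h4 ξ0, smul_smul]
      rfl
    have e2 : fn Φ ξ1 ζ = lam • fnL E υ ξ1 := h4 ξ1
    have h8 := h3 (g 0) (c * g 1) (c * lam * g 2 - g 0 * d) (by
      rw [e1, e2]
      have h9 := congrArg (fun f => (c * lam) • f) h7
      simp only [smul_zero] at h9
      rw [← h9]
      have e3 : fn E η0 υ = fnL E υ η0 := rfl
      rw [e3]
      module)
    obtain ⟨g0, g1, g2⟩ := h8
    have g1' : g 1 = 0 := (mul_eq_zero.1 g1).resolve_left hc
    have g2' : g 2 = 0 := by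
      rw [g0, zero_mul, sub_zero] at g2
      exact (mul_eq_zero.1 g2).resolve_left (mul_ne_zero hc hl)
    rw [g0, g1', g2'] at h6
    simp only [zero_smul, zero_add] at h6
    obtain ⟨g3, g4⟩ := hζυ _ _ h6
    intro i
    fin_cases i
    · exact g0
    · exact g1'
    · exact g2'
    · exact g3
    · exact g4
  have h6 := hli.fintype_card_le_finrank
  rw [Fintype.card_fin, finrank_fin_fun] at h6
  omega

/-- forms with proportional values are proportional -/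
theorem cycB1 (Φ E : M →ₗ[k] (Fin 6 → k)) (ζ0 ξ1 η0 : Fin 4 → k)
    (h2 : I2 k (fn Φ ξ1 ζ0) (fn E η0 ζ0)) (hall : ∀ η ζ, ¬ I2 k (fn Φ η ζ) (fn E η ζ)) :
    ∃ lam : k, lam ≠ 0 ∧ ∀ n, Φ n = lam • E n := by
  obtain ⟨lam, hl, h4⟩ := cl2 (fnL Φ ζ0) (fnL E ζ0) (x0 := ξ1) (x1 := η0) (fun x => hall x ζ0) h2
  refine ⟨lam, hl, ?_⟩
  set Ψ : M →ₗ[k] (Fin 6 → k) := Φ - lam • E with hΨ
  have hfn : ∀ ξ η, fn Ψ ξ η = fn Φ ξ η - lam • fn E ξ η := by
    intro ξ η
    ext n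
    simp only [fn_apply, hΨ, LinearMap.sub_apply, LinearMap.smul_apply, pr_sub, pr_smul,
      smul_eq_mul]
  have hΨ0 : ∀ η, fn Ψ η ζ0 = 0 := by
    intro η
    rw [hfn]
    have h5 : fn Φ η ζ0 = lam • fn E η ζ0 := h4 η
    rw [h5, sub_self]
  have hdep : ∀ η ζ, ¬ I2 k (fn Ψ η ζ) (fn E η ζ) := by
    intro η ζ h5
    apply hall η ζ
    intro s t hst
    have h6 := h5 s (t + s * lam) (by rw [hfn, ← hst]; module)
    refine ⟨h6.1, ?_⟩
    have h7 := h6.2
    rw [h6.1, zero_mul, add_zero] at h7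
    exact h7
  have hE : I2 k (fn E ξ1 ζ0) (fn E η0 ζ0) := by
    intro s t hst
    have h5 : fn Φ ξ1 ζ0 = lam • fn E ξ1 ζ0 := h4 ξ1
    have h6 := h2 s (lam * t) (by
      rw [h5]
      have := congrArg (fun f => lam • f) hst
      simp only [smul_zero] at this
      rw [← this]
      module)
    exact ⟨h6.1, (mul_eq_zero.1 h6.2).resolve_left hl⟩
  have key : ∀ ζ, fn E ζ ζ0 ≠ 0 → ∀ η, fn Ψ η ζ = 0 := by
    intro ζ hζ η
    by_contra hη
    apply hζ
    have hd : ∀ x, ¬ I2 k (fnL E ζ0 x) (fnL Ψ ζ x) := by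
      intro x hx
      have hx0 : fn Ψ x ζ ≠ 0 := hx.right
      obtain ⟨a, ha⟩ := dep_right (hdep x ζ) hx0
      have h5 := hdep x (ζ + ζ0)
      rw [fn_add_right, fn_add_right, hΨ0, add_zero] at h5
      obtain ⟨b, hb⟩ := dep_right h5 hx0
      have h6 : fn E x ζ0 = (b - a) • fn Ψ x ζ := by
        rw [ha] at hb
        exact (eq_sub_of_add_eq' hb).trans (sub_smul b a _).symm
      have h7 := hx 1 (-(b - a)) (by
        change (1 : k) • fn E x ζ0 + (-(b - a)) • fn Ψ x ζ = 0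
        rw [h6]
        module)
      exact one_ne_zero h7.1
    have hex : ∃ η1, I2 k (fnL E ζ0 η1) (fnL Ψ ζ η) := by
      by_contra hcon
      push Not at hcon
      obtain ⟨a, ha⟩ := dep_left (hcon ξ1) hη
      obtain ⟨b, hb⟩ := dep_left (hcon η0) hη
      have h5 := hE b (-a) (by
        have e1 : fn E ξ1 ζ0 = a • fnL Ψ ζ η := ha
        have e2 : fn E η0 ζ0 = b • fnL Ψ ζ η := hb
        rw [e1, e2]
        module)
      apply hE.right
      have e2 : fn E η0 ζ0 = b • fnL Ψ ζ η := hb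
      rw [e2, h5.1, zero_smul]
    obtain ⟨η1, h6⟩ := hex
    obtain ⟨c, hc, h7⟩ := cl2 (fnL E ζ0) (fnL Ψ ζ) hd h6
    have h8 := h7 ζ
    rw [fnL_apply, fnL_apply, fn_self, smul_zero] at h8
    exact h8
  have hall' : ∀ ζ η, fn Ψ η ζ = 0 := by
    intro ζ η
    by_cases hζ : fn E ζ ζ0 = 0
    · have h5 := key (ζ + ξ1) (by rw [fn_add_left, hζ, zero_add]; exact hE.left) η
      rw [fn_add_right, key ξ1 hE.left, add_zero] at h5
      exact h5
    · exact key ζ hζ η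
  intro n
  have h5 : Ψ n = 0 := by
    apply eq_zero_of_pr
    intro X Y
    exact congrArg (fun f : M →ₗ[k] k => f n) (hall' Y X)
  exact sub_eq_zero.1 h5

/-- three functionals of a map of rank at most two are dependent -/
theorem rank2_dep [FiniteDimensional k M] (E : M →ₗ[k] (Fin 6 → k))
    (hE : ∃ n m : M, ∀ l, ∃ a b : k, E (l - a • n - b • m) = 0)
    (f : Fin 3 → M →ₗ[k] k) (hf : ∀ i l, E l = 0 → f i l = 0) : ¬ LinearIndependent k f := by
  intro hli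
  have h1 := dim_of_li f hli
  obtain ⟨n, m, hnm⟩ := hE
  have h2 : LinearMap.range E ≤ Submodule.span k {E n, E m} := by
    rintro _ ⟨l, rfl⟩
    obtain ⟨a, b, hab⟩ := hnm l
    rw [map_sub, map_sub, map_smul, map_smul, sub_sub, sub_eq_zero] at hab
    rw [hab]
    exact Submodule.add_mem _
      (Submodule.smul_mem _ _ (Submodule.subset_span (Set.mem_insert _ _)))
      (Submodule.smul_mem _ _ (Submodule.subset_span (Set.mem_insert_of_mem _ rfl)))
  have h3 : finrank k (LinearMap.range E) ≤ 2 := by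
    refine (Submodule.finrank_mono h2).trans ?_
    classical
    have h4 := finrank_span_finset_le_card (R := k) ({E n, E m} : Finset (Fin 6 → k))
    rw [Finset.coe_insert, Finset.coe_singleton] at h4
    exact h4.trans Finset.card_le_two
  have h4 := LinearMap.finrank_range_add_finrank_ker E
  have h5 : finrank k (LinearMap.ker E) ≤ finrank k (LinearMap.ker (LinearMap.pi f)) := by
    apply Submodule.finrank_mono
    intro l hl
    rw [LinearMap.mem_ker] at hl ⊢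
    funext i
    exact hf i l hl
  omega

end Pool.Agent.Y530.BB
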