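import Mathlib
import Pool.Agent.W824.BJ.Drop

/-!
# Rigid bodies joined by bars: motions, and specialisation of the points
-/

set_option autoImplicit false

namespace Pool.Agent.Y530.BB

open Finset Module Pool.Agent.W824.BJ

section mot

variable {V B : Type*}

/-- the motions of the bodies which satisfy the equations of the bars in `F` at the placement `y` -/
def BM {k : Type*} [CommRing k] (β : V → B) (F : Finset (Sym2 V)) (y : V → Fin 4 → k) :
    Submodule k (B → Fin 6 → k) where
  carrier := {n | ∀ u v, s(u, v) ∈ F → pr (n (β u) - n (β v)) (y u) (y v) = 0}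
  add_mem' := by
    intro n m hn hm u v h
    have h1 := hn u v h
    have h2 := hm u v h
    rw [pr_sub] at h1 h2 ⊢
    rw [Pi.add_apply, Pi.add_apply, pr_add, pr_add]
    linear_combination h1 + h2
  zero_mem' := by
    intro u v _
    rw [Pi.zero_apply, Pi.zero_apply, sub_zero, pr_zero]
  smul_mem' := by
    intro a n hn u v h
    rw [Pi.smul_apply, Pi.smul_apply, ← smul_sub, pr_smul, hn u v h, mul_zero]

theorem mem_bm {k : Type*} [CommRing k] {β : V → B} {F : Finset (Sym2 V)} {y : V → Fin 4 → k}
    {n : B → Fin 6 → k} :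
    n ∈ BM β F y ↔ ∀ u v, s(u, v) ∈ F → pr (n (β u) - n (β v)) (y u) (y v) = 0 := Iff.rfl

open Classical in
/-- the constraint map -/
noncomputable def bcon {k : Type*} [CommRing k] (β : V → B) (F : Finset (Sym2 V))
    (y : V → Fin 4 → k) : (B × Fin 6 → k) →ₗ[k] (V × V → k) where
  toFun n c := if s(c.1, c.2) ∈ F then
    pr (fun l => n (β c.1, l) - n (β c.2, l)) (y c.1) (y c.2) else 0
  map_add' n m := by
    funext c
    by_cases h : s(c.1, c.2) ∈ F
    · rw [Pi.add_apply, if_pos h, if_pos h, if_pos h]
      simp only [pr, Pi.add_apply]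
      ring
    · rw [Pi.add_apply, if_neg h, if_neg h, if_neg h, add_zero]
  map_smul' a n := by
    funext c
    by_cases h : s(c.1, c.2) ∈ F
    · rw [Pi.smul_apply, if_pos h, if_pos h]
      simp only [pr, Pi.smul_apply, smul_eq_mul, RingHom.id_apply]
      ring
    · rw [Pi.smul_apply, if_neg h, if_neg h, smul_zero]

theorem finrank_bm {k : Type*} [Field k] [Fintype V] [Fintype B] [DecidableEq B]
    (β : V → B) (F : Finset (Sym2 V)) (y : V → Fin 4 → k) :
    finrank k (BM β F y) + (LinearMap.toMatrix' (bcon β F y)).rank =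
      6 * Fintype.card B := by
  classical
  have h1 := LinearMap.finrank_range_add_finrank_ker (bcon β F y)
  have h2 : (LinearMap.toMatrix' (bcon β F y)).rank =
      finrank k (LinearMap.range (bcon β F y)) := by
    rw [Matrix.rank, ← Matrix.toLin'_apply', Matrix.toLin'_toMatrix']
  have h3 : LinearMap.ker (bcon β F y) =
      (BM β F y).comap (LinearEquiv.curry k k B (Fin 6)).toLinearMap := by
    ext n
    rw [LinearMap.mem_ker, Submodule.mem_comap]
    constructor
    · intro h u v he
      have := congrFun h (u, v)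
      change (if s(u, v) ∈ F then pr (fun l => n (β u, l) - n (β v, l)) (y u) (y v) else 0)
        = 0 at this
      rw [if_pos he] at this
      exact this
    · intro h
      funext c
      change (if s(c.1, c.2) ∈ F then pr (fun l => n (β c.1, l) - n (β c.2, l)) (y c.1) (y c.2)
        else 0) = 0
      split_ifs with hc
      · exact h c.1 c.2 hc
      · rfl
  have h4 : finrank k (LinearMap.ker (bcon β F y)) = finrank k (BM β F y) := by
    rw [h3, Submodule.comap_equiv_eq_map_symm]
    exact LinearEquiv.finrank_map_eq _ _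
  rw [h2, ← h4, add_comm, h1]
  simp
  ring

theorem bcon_map {R S : Type*} [CommRing R] [CommRing S] [Fintype B] [DecidableEq B]
    (f : R →+* S) (β : V → B) (F : Finset (Sym2 V)) (x : V → Fin 4 → R) :
    (LinearMap.toMatrix' (bcon β F x)).map f =
      LinearMap.toMatrix' (bcon β F fun e i => f (x e i)) := by
  classical
  ext c b
  rw [Matrix.map_apply, LinearMap.toMatrix'_apply, LinearMap.toMatrix'_apply]
  change f (if s(c.1, c.2) ∈ F then _ else 0) = if s(c.1, c.2) ∈ F then _ else 0
  split_ifs with hc
  · have hp : ∀ c' : B × Fin 6, f ((Pi.single b 1 : B × Fin 6 → R) c') =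
        (Pi.single b 1 : B × Fin 6 → S) c' := by
      intro c'
      by_cases h : c' = b
      · subst h; simp
      · rw [Pi.single_eq_of_ne h, Pi.single_eq_of_ne h, map_zero]
    have hq : ∀ (n : Fin 6 → R) (n' : Fin 6 → S) (X Y : Fin 4 → R),
        (∀ l, f (n l) = n' l) → f (pr n X Y) = pr n' (fun j => f (X j)) (fun j => f (Y j)) := by
      intro n n' X Y h
      simp [pr, h]
    apply hq
    intro l
    rw [map_sub, hp, hp]
  · exact map_zero f

/-- a specialisation of the placement does not decrease the space of motions -/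
theorem finrank_bm_le {R K L : Type*} [CommRing R] [Field K] [Field L] [Fintype V] [Fintype B]
    (φ : R →+* K) (hφ : Function.Injective φ) (ψ : R →+* L) (β : V → B) (F : Finset (Sym2 V))
    (x : V → Fin 4 → R) :
    finrank K (BM β F fun e i => φ (x e i)) ≤ finrank L (BM β F fun e i => ψ (x e i)) := by
  classical
  have h1 := finrank_bm β F fun e i => φ (x e i)
  have h2 := finrank_bm β F fun e i => ψ (x e i)
  rw [← bcon_map φ] at h1
  rw [← bcon_map ψ] at h2
  have h3 := rank_map_le φ hφ ψ (LinearMap.toMatrix' (bcon β F x))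
  omega

/-- the motions at the generic placement -/
noncomputable def GB (β : V → B) (F : Finset (Sym2 V)) : Submodule (PK V) (B → Fin 6 → PK V) :=
  BM β F (gx V)

/-- the dimension of the space of motions at the generic placement -/
noncomputable def gb (β : V → B) (F : Finset (Sym2 V)) : ℕ := finrank (PK V) (GB β F)

theorem gb_le {L : Type*} [Field L] [CharZero L] [Fintype V] [Fintype B]
    (β : V → B) (F : Finset (Sym2 V)) (y : V → Fin 4 → L) :
    gb β F ≤ finrank L (BM β F y) := by
  have h := finrank_bm_le (algebraMap (PR V) (PK V)) (IsFractionRing.injective _ _)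
    ((MvPolynomial.aeval fun c : V × Fin 4 => y c.1 c.2 : PR V →ₐ[ℚ] L) : PR V →+* L) β F (tx V)
  have h2 : (fun e i => ((MvPolynomial.aeval fun c : V × Fin 4 => y c.1 c.2 : PR V →ₐ[ℚ] L) :
      PR V →+* L) (tx V e i)) = y := by
    funext e i
    simp [tx]
  rw [h2] at h
  exact h

theorem gb_eq {L : Type*} [Field L] [CharZero L] [Fintype V] [Fintype B]
    (β : V → B) (F : Finset (Sym2 V)) (y : V → Fin 4 → L)
    (hy : AlgebraicIndependent ℚ fun c : V × Fin 4 => y c.1 c.2) :
    finrank L (BM β F y) = gb β F := by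
  apply le_antisymm _ (gb_le β F y)
  have h := finrank_bm_le
    ((MvPolynomial.aeval fun c : V × Fin 4 => y c.1 c.2 : PR V →ₐ[ℚ] L) : PR V →+* L)
    (fun a b hab => hy hab) (algebraMap (PR V) (PK V)) β F (tx V)
  have h2 : (fun e i => ((MvPolynomial.aeval fun c : V × Fin 4 => y c.1 c.2 : PR V →ₐ[ℚ] L) :
      PR V →+* L) (tx V e i)) = y := by
    funext e i
    simp [tx]
  rw [h2] at h
  exact h

/-- the left side of the equation of a bar -/
def rw0 {k : Type*} [CommRing k] (β : V → B) (y : V → Fin 4 → k) (u v : V) :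
    (B → Fin 6 → k) →ₗ[k] k where
  toFun n := pr (n (β u) - n (β v)) (y u) (y v)
  map_add' n m := by
    simp only [Pi.add_apply, pr]
    simp only [Pi.add_apply, Pi.sub_apply]
    ring
  map_smul' a n := by
    rw [Pi.smul_apply, Pi.smul_apply, ← smul_sub, pr_smul]
    rfl

theorem rw0_apply {k : Type*} [CommRing k] (β : V → B) (y : V → Fin 4 → k) (u v : V)
    (n : B → Fin 6 → k) : rw0 β y u v n = pr (n (β u) - n (β v)) (y u) (y v) := rfl

theorem pr_symm {k : Type*} [CommRing k] (c d : Fin 6 → k) (X Y : Fin 4 → k) :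
    pr (c - d) X Y = pr (d - c) Y X := by
  simp only [pr, Pi.sub_apply]
  ring

variable [DecidableEq V]

theorem mem_insert_iff {k : Type*} [CommRing k] {β : V → B} {F : Finset (Sym2 V)}
    {y : V → Fin 4 → k} {u v : V} {n : B → Fin 6 → k} :
    n ∈ BM β (insert s(u, v) F) y ↔
      n ∈ BM β F y ∧ pr (n (β u) - n (β v)) (y u) (y v) = 0 := by
  constructor
  · intro h
    exact ⟨fun a b hab => h a b (Finset.mem_insert_of_mem hab),
      h u v (Finset.mem_insert_self _ _)⟩
  · rintro ⟨h1, h2⟩ a b hab
    rcases Finset.mem_insert.1 hab with h | h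
    · rcases Sym2.eq_iff.1 h with ⟨rfl, rfl⟩ | ⟨rfl, rfl⟩
      · exact h2
      · rw [pr_symm]
        exact h2
    · exact h1 a b h

theorem BM_insert {k : Type*} [CommRing k] (β : V → B) (F : Finset (Sym2 V))
    (y : V → Fin 4 → k) (u v : V) :
    BM β (insert s(u, v) F) y = BM β F y ⊓ LinearMap.ker (rw0 β y u v) := by
  ext n
  rw [mem_insert_iff, Submodule.mem_inf, LinearMap.mem_ker]
  rfl

omit [DecidableEq V] in
theorem BM_anti {k : Type*} [CommRing k] {β : V → B} {F F' : Finset (Sym2 V)} (h : F ⊆ F')
    (y : V → Fin 4 → k) : BM β F' y ≤ BM β F y := fun _ hn u v huv => hn u v (h huv)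

omit [DecidableEq V] in
theorem BM_congr {k : Type*} [CommRing k] {β : V → B} {F : Finset (Sym2 V)}
    {y y' : V → Fin 4 → k} (h : ∀ u v, s(u, v) ∈ F → y u = y' u) : BM β F y = BM β F y' := by
  ext n
  rw [mem_bm, mem_bm]
  refine forall₂_congr fun u v => ?_
  constructor
  · intro h1 huv
    rw [← h u v huv, ← h v u (by rw [Sym2.eq_swap]; exact huv)]
    exact h1 huv
  · intro h1 huv
    rw [h u v huv, h v u (by rw [Sym2.eq_swap]; exact huv)]
    exact h1 huv

/-- one bar more reduces the dimension by at most one -/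
theorem le_insert {k : Type*} [Field k] [Finite B] (β : V → B) (F : Finset (Sym2 V))
    (y : V → Fin 4 → k) (e : Sym2 V) :
    finrank k (BM β F y) ≤ finrank k (BM β (insert e F) y) + 1 := by
  induction e using Sym2.ind with
  | _ u v =>
    apply le_inf_add (r := 1) (BM β F y) _ (LinearMap.pi fun _ => rw0 β y u v)
    rw [BM_insert]
    refine inf_le_inf_left _ ?_
    intro n hn
    rw [LinearMap.mem_ker] at hn ⊢
    exact congrFun hn 0

omit [DecidableEq V] in
theorem BM_empty {k : Type*} [CommRing k] (β : V → B) (y : V → Fin 4 → k) :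
    BM β ∅ y = ⊤ := by
  rw [eq_top_iff]
  intro n _ u v h
  exact absurd h (Finset.notMem_empty _)

omit [DecidableEq V] in
theorem finrank_top' {k : Type*} [Field k] [Fintype B] :
    finrank k (⊤ : Submodule k (B → Fin 6 → k)) = 6 * Fintype.card B := by
  rw [finrank_top, Module.finrank_pi_fintype]
  simp [mul_comm]

theorem le_card {k : Type*} [Field k] [Fintype B] (β : V → B) (F : Finset (Sym2 V))
    (y : V → Fin 4 → k) : 6 * Fintype.card B ≤ finrank k (BM β F y) + F.card := by
  induction F using Finset.induction_on with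
  | empty =>
    rw [BM_empty, finrank_top']
    omega
  | insert e F he ih =>
    have h1 := le_insert β F y e
    rw [Finset.card_insert_of_notMem he]
    omega

omit [DecidableEq V] in
/-- the pull back of motions along a map of bodies -/
def pl {k : Type*} [CommRing k] {B' : Type*} (q : B → B') :
    (B' → Fin 6 → k) →ₗ[k] (B → Fin 6 → k) where
  toFun n b := n (q b)
  map_add' _ _ := rfl
  map_smul' _ _ := rfl

omit [DecidableEq V] in
theorem pl_mem {k : Type*} [CommRing k] {B' : Type*} (q : B → B') {β : V → B}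
    {F : Finset (Sym2 V)} {y : V → Fin 4 → k} {n : B' → Fin 6 → k} :
    n ∈ BM (q ∘ β) F y ↔ pl q n ∈ BM β F y := Iff.rfl

omit [DecidableEq V] in
theorem pl_inj {k : Type*} [CommRing k] {B' : Type*} {q : B → B'} (hq : Function.Surjective q) :
    Function.Injective (pl (k := k) q) := by
  intro n m h
  funext c
  obtain ⟨b, rfl⟩ := hq c
  exact congrFun h b

omit [DecidableEq V] in
theorem finrank_pl_le {k : Type*} [Field k] [Finite B] {B' : Type*} {q : B → B'}
    (hq : Function.Surjective q) (β : V → B) (F : Finset (Sym2 V)) (y : V → Fin 4 → k) :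
    finrank k (BM (q ∘ β) F y) ≤ finrank k (BM β F y) := by
  have h1 : (BM (q ∘ β) F y).map (pl q) ≤ BM β F y := by
    rintro _ ⟨n, hn, rfl⟩
    exact (pl_mem q).1 hn
  calc finrank k (BM (q ∘ β) F y) = finrank k ((BM (q ∘ β) F y).map (pl q)) :=
        (Submodule.equivMapOfInjective (pl q) (pl_inj hq) _).finrank_eq
    _ ≤ _ := Submodule.finrank_mono h1

omit [DecidableEq V] in
theorem finrank_pl_eq {k : Type*} [Field k] [Finite B] {B' : Type*} {q : B → B'}
    (hq : Function.Surjective q) (β : V → B) (F : Finset (Sym2 V)) (y : V → Fin 4 → k)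
    (h : ∀ n ∈ BM β F y, ∀ a b, q a = q b → n a = n b) :
    finrank k (BM (q ∘ β) F y) = finrank k (BM β F y) := by
  have h1 : (BM (q ∘ β) F y).map (pl q) = BM β F y := by
    apply le_antisymm
    · rintro _ ⟨n, hn, rfl⟩
      exact (pl_mem q).1 hn
    · intro n hn
      have h2 : pl q (fun c => n (Function.surjInv hq c)) = n := by
        funext b
        change n (Function.surjInv hq (q b)) = n b
        exact h n hn _ _ (Function.surjInv_eq hq (q b))
      refine ⟨fun c => n (Function.surjInv hq c), ?_, h2⟩
      change _ ∈ BM (q ∘ β) F y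
      rw [pl_mem, h2]
      exact hn
  rw [← h1]
  exact (Submodule.equivMapOfInjective (pl q) (pl_inj hq) _).finrank_eq

omit [DecidableEq V] in
/-- bars inside the classes impose no condition -/
theorem BM_cross {k : Type*} [CommRing k] (β : V → B) {F F' : Finset (Sym2 V)}
    (y : V → Fin 4 → k) (hF : F' ⊆ F) (h : ∀ u v, s(u, v) ∈ F → β u ≠ β v → s(u, v) ∈ F') :
    BM β F' y = BM β F y := by
  apply le_antisymm _ (BM_anti hF y)
  intro n hn u v huv
  by_cases hb : β u = β v
  · rw [hb, sub_self, pr_zero]
  · exact hn u v (h u v huv hb)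

end mot

end Pool.Agent.Y530.BB
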