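import Mathlib
import Pool.Agent.Y530.BB.Sys

/-!
# Sparse systems of bars, contraction of the bodies which move together
-/

set_option autoImplicit false

namespace Pool.Agent.Y530.BB

open Finset Module Pool.Agent.W824.BJ

section defs

variable {V B : Type}

open Classical in
/-- the bars inside a set of bodies -/
noncomputable def ins (β : V → B) (F : Finset (Sym2 V)) (C : Finset B) : Finset (Sym2 V) :=
  F.filter fun e => ∀ v ∈ e, β v ∈ C

/-- each nonempty set of bodies spans at most `6 |C| - 6` bars -/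
def Sparse (β : V → B) (F : Finset (Sym2 V)) : Prop :=
  ∀ C : Finset B, C.Nonempty → (ins β F C).card + 6 ≤ 6 * C.card

open Classical in
/-- each point is the end of at most two bars -/
def Cap (F : Finset (Sym2 V)) : Prop := ∀ v, (F.filter fun e => v ∈ e).card ≤ 2

open Classical in
/-- the bars between different bodies -/
noncomputable def crs (β : V → B) (F : Finset (Sym2 V)) : Finset (Sym2 V) :=
  F.filter fun e => ¬ ∀ u ∈ e, ∀ v ∈ e, β u = β v

theorem mem_ins {β : V → B} {F : Finset (Sym2 V)} {C : Finset B} {e : Sym2 V} :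
    e ∈ ins β F C ↔ e ∈ F ∧ ∀ v ∈ e, β v ∈ C := by
  classical
  unfold ins
  rw [Finset.mem_filter]

theorem mem_ins' {β : V → B} {F : Finset (Sym2 V)} {C : Finset B} {u v : V} :
    s(u, v) ∈ ins β F C ↔ s(u, v) ∈ F ∧ β u ∈ C ∧ β v ∈ C := by
  rw [mem_ins]
  refine and_congr_right fun _ => ?_
  constructor
  · intro h
    exact ⟨h u (Sym2.mem_mk_left u v), h v (Sym2.mem_mk_right u v)⟩
  · rintro ⟨h1, h2⟩ w hw
    rcases Sym2.mem_iff.1 hw with rfl | rfl
    · exact h1
    · exact h2

theorem mem_crs {β : V → B} {F : Finset (Sym2 V)} {e : Sym2 V} :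
    e ∈ crs β F ↔ e ∈ F ∧ ¬ ∀ u ∈ e, ∀ v ∈ e, β u = β v := by
  classical
  unfold crs
  rw [Finset.mem_filter]

theorem mem_crs' {β : V → B} {F : Finset (Sym2 V)} {u v : V} :
    s(u, v) ∈ crs β F ↔ s(u, v) ∈ F ∧ β u ≠ β v := by
  rw [mem_crs]
  refine and_congr_right fun _ => ?_
  rw [not_iff_comm, not_not]
  constructor
  · intro h a ha b hb
    rcases Sym2.mem_iff.1 ha with rfl | rfl <;> rcases Sym2.mem_iff.1 hb with rfl | rfl
    · rfl
    · exact h
    · exact h.symm
    · rfl
  · intro h
    exact h u (Sym2.mem_mk_left u v) v (Sym2.mem_mk_right u v)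

theorem ins_mono {β : V → B} {F F' : Finset (Sym2 V)} {C C' : Finset B} (h : F ⊆ F')
    (hC : C ⊆ C') : ins β F C ⊆ ins β F' C' := by
  intro e he
  rw [mem_ins] at he ⊢
  exact ⟨h he.1, fun v hv => hC (he.2 v hv)⟩

theorem Sparse.mono {β : V → B} {F F' : Finset (Sym2 V)} (h : F ⊆ F') (hF : Sparse β F') :
    Sparse β F := by
  intro C hC
  have h1 := Finset.card_le_card (ins_mono (β := β) h (Finset.Subset.refl C))
  have h2 := hF C hC
  omega

theorem Cap.mono {F F' : Finset (Sym2 V)} (h : F ⊆ F') (hF : Cap F') : Cap F := by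
  classical
  intro v
  exact (Finset.card_le_card (Finset.filter_subset_filter _ h)).trans (hF v)

theorem Sparse.ne {β : V → B} {F : Finset (Sym2 V)} (hF : Sparse β F) {u v : V}
    (h : s(u, v) ∈ F) : β u ≠ β v := by
  intro huv
  have h1 := hF {β u} (Finset.singleton_nonempty _)
  have h2 : s(u, v) ∈ ins β F {β u} := by
    rw [mem_ins']
    exact ⟨h, Finset.mem_singleton_self _, by rw [huv]; exact Finset.mem_singleton_self _⟩
  have h3 : 0 < (ins β F {β u}).card := Finset.card_pos.2 ⟨_, h2⟩
  rw [Finset.card_singleton] at h1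
  omega

theorem crs_subset (β : V → B) (F : Finset (Sym2 V)) : crs β F ⊆ F := fun _ he => (mem_crs.1 he).1

end defs

/-- the theorem for systems with `N` bars -/
def PP (N : ℕ) : Prop := ∀ (V B : Type) [Fintype V] [Fintype B] (β : V → B)
  (F : Finset (Sym2 V)), F.card = N → Cap F → Sparse β F → gb β F + N = 6 * Fintype.card B

section nr

variable {V B : Type} [Fintype V] [Fintype B]

theorem sparse_of_NR {N : ℕ} (IH : ∀ m < N, PP m) (β : V → B) (F : Finset (Sym2 V))
    (hcap : Cap F) (hN : F.card < N) (hloop : ∀ u v, s(u, v) ∈ F → β u ≠ β v)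
    (hNR : ∀ b b', b ≠ b' → ∃ n ∈ GB β F, n b ≠ n b') : Sparse β F := by
  classical
  by_contra hcon
  unfold Sparse at hcon
  push Not at hcon
  obtain ⟨C0, hC0, hbad0⟩ := hcon
  obtain ⟨C, hCS, hmin⟩ := Finset.exists_min_image
    ((univ : Finset (Finset B)).filter fun C => C.Nonempty ∧ 6 * C.card < (ins β F C).card + 6)
    Finset.card ⟨C0, Finset.mem_filter.2 ⟨Finset.mem_univ _, hC0, hbad0⟩⟩
  obtain ⟨-, hC, hbad⟩ := Finset.mem_filter.1 hCS
  have hlow : ∀ D : Finset B, D.Nonempty → D.card < C.card →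
      (ins β F D).card + 6 ≤ 6 * D.card := by
    intro D hD hlt
    by_contra h
    push Not at h
    have := hmin D (Finset.mem_filter.2 ⟨Finset.mem_univ _, hD, h⟩)
    omega
  have hCpos : 0 < C.card := Finset.card_pos.2 hC
  obtain ⟨F1, hF1, hF1c⟩ := Finset.exists_subset_card_eq
    (show 6 * C.card - 6 ≤ (ins β F C).card by omega)
  have hF1F : F1 ⊆ F := fun e he => (mem_ins.1 (hF1 he)).1
  have hsp1 : Sparse β F1 := by
    intro D hD
    have hsub : ins β F1 D ⊆ ins β F (D ∩ C) := by
      intro e he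
      rw [mem_ins] at he ⊢
      refine ⟨hF1F he.1, fun v hv => Finset.mem_inter.2 ⟨he.2 v hv, ?_⟩⟩
      exact (mem_ins.1 (hF1 he.1)).2 v hv
    have hle := Finset.card_le_card hsub
    have hDC : (D ∩ C).card ≤ D.card := Finset.card_le_card Finset.inter_subset_left
    have hDC' : (D ∩ C).card ≤ C.card := Finset.card_le_card Finset.inter_subset_right
    by_cases hne : (D ∩ C).Nonempty
    · by_cases hlt : (D ∩ C).card < C.card
      · have := hlow _ hne hlt
        omega
      · have h1 : (ins β F1 D).card ≤ F1.card :=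
          Finset.card_le_card fun e he => (mem_ins.1 he).1
        omega
    · rw [Finset.not_nonempty_iff_eq_empty] at hne
      have h1 : ins β F1 D = ∅ := by
        rw [Finset.eq_empty_iff_forall_notMem]
        intro e
        induction e using Sym2.ind with
        | _ u v =>
          intro he
          have h2 := hsub he
          rw [hne, mem_ins'] at h2
          exact absurd h2.2.1 (Finset.notMem_empty _)
      have hDpos : 0 < D.card := Finset.card_pos.2 hD
      rw [h1, Finset.card_empty]
      omega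
  have hIH := IH F1.card (lt_of_le_of_lt (Finset.card_le_card hF1F) hN) V B β F1 rfl
    (hcap.mono hF1F) hsp1
  have hC2 : 1 < C.card := by
    by_contra h
    have h1 : C.card = 1 := by omega
    obtain ⟨c, rfl⟩ := Finset.card_eq_one.1 h1
    have h2 : ins β F {c} = ∅ := by
      rw [Finset.eq_empty_iff_forall_notMem]
      intro e
      induction e using Sym2.ind with
      | _ u v =>
        intro he
        rw [mem_ins'] at he
        exact hloop u v he.1 ((Finset.mem_singleton.1 he.2.1).trans
          (Finset.mem_singleton.1 he.2.2).symm)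
    rw [h2, Finset.card_empty, Finset.card_singleton] at hbad
    omega
  obtain ⟨b, hb, b', hb', hbb⟩ := Finset.one_lt_card.1 hC2
  obtain ⟨n, hn, hne⟩ := hNR b b' hbb
  apply hne
  let q : B → Option {b : B // b ∉ C} := fun b => if h : b ∉ C then some ⟨b, h⟩ else none
  have hqC : ∀ b ∈ C, q b = none := fun b hb => by
    change (if h : b ∉ C then some (⟨b, h⟩ : {b : B // b ∉ C}) else none) = none
    rw [dif_neg (not_not.2 hb)]
  have hq : Function.Surjective q := by
    intro c
    match c with
    | none => exact ⟨b, hqC b hb⟩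
    | some ⟨a, ha⟩ =>
      refine ⟨a, ?_⟩
      change (if h : a ∉ C then some (⟨a, h⟩ : {b : B // b ∉ C}) else none) = _
      rw [dif_pos ha]
  have htop : GB (q ∘ β) F1 = ⊤ := by
    rw [eq_top_iff]
    intro m _ u v huv
    have h1 := mem_ins'.1 (hF1 huv)
    have h2 : (q ∘ β) u = (q ∘ β) v := (hqC _ h1.2.1).trans (hqC _ h1.2.2).symm
    rw [h2, sub_self, pr_zero]
  have hcardq : Fintype.card (Option {b : B // b ∉ C}) = Fintype.card B - C.card + 1 := by
    rw [Fintype.card_option, Fintype.card_subtype_compl]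
    simp
  have hCB : C.card ≤ Fintype.card B := Finset.card_le_univ C
  have h1 : (GB (q ∘ β) F1).map (pl q) = GB β F1 := by
    apply Submodule.eq_of_le_of_finrank_eq
    · rintro _ ⟨m, hm, rfl⟩
      exact (pl_mem q).1 hm
    · rw [← (Submodule.equivMapOfInjective (pl q) (pl_inj hq) _).finrank_eq, htop,
        finrank_top', hcardq]
      unfold gb at hIH
      omega
  have h2 : n ∈ GB β F1 := BM_anti hF1F _ hn
  rw [← h1] at h2
  obtain ⟨m, -, rfl⟩ := h2
  change m (q b) = m (q b')
  rw [hqC b hb, hqC b' hb']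

/-- bodies which move together in all motions -/
def mt (β : V → B) (F : Finset (Sym2 V)) : Setoid B where
  r a b := ∀ n ∈ GB β F, n a = n b
  iseqv := ⟨fun _ _ _ => rfl, fun h n hn => (h n hn).symm,
    fun h h' n hn => (h n hn).trans (h' n hn)⟩

omit [Fintype V] in
theorem gb_mt (β : V → B) (F : Finset (Sym2 V)) :
    gb (Quotient.mk (mt β F) ∘ β) (crs (Quotient.mk (mt β F) ∘ β) F) = gb β F := by
  unfold gb GB
  rw [BM_cross (Quotient.mk (mt β F) ∘ β) (gx V) (crs_subset _ F)
    (fun u v huv hne => mem_crs'.2 ⟨huv, hne⟩)]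
  exact finrank_pl_eq Quotient.mk_surjective β F (gx V) fun n hn a b hab =>
    (Quotient.exact hab : (mt β F) a b) n hn

omit [Fintype V] [Fintype B] in
theorem NR_mt (β : V → B) (F : Finset (Sym2 V)) (c c' : Quotient (mt β F)) (h : c ≠ c') :
    ∃ n ∈ GB (Quotient.mk (mt β F) ∘ β) (crs (Quotient.mk (mt β F) ∘ β) F), n c ≠ n c' := by
  obtain ⟨a, rfl⟩ := Quotient.exists_rep c
  obtain ⟨b, rfl⟩ := Quotient.exists_rep c'
  have h1 : ¬ (mt β F) a b := fun h' => h (Quotient.sound h')
  have h2 : ¬ ∀ n ∈ GB β F, n a = n b := h1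
  push Not at h2
  obtain ⟨n, hn, hne⟩ := h2
  refine ⟨fun c => Quotient.lift n (fun a b hab => (hab : (mt β F) a b) n hn) c, ?_, hne⟩
  unfold GB
  rw [BM_cross (Quotient.mk (mt β F) ∘ β) (gx V) (crs_subset _ F)
    (fun u v huv hne => mem_crs'.2 ⟨huv, hne⟩), pl_mem]
  exact hn

theorem sparse_mt {N : ℕ} (IH : ∀ m < N, PP m) (β : V → B) (F : Finset (Sym2 V))
    (hcap : Cap F) (hN : F.card < N) :
    Sparse (Quotient.mk (mt β F) ∘ β) (crs (Quotient.mk (mt β F) ∘ β) F) := by
  classical
  exact sparse_of_NR IH _ _ (hcap.mono (crs_subset _ F))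
    (lt_of_le_of_lt (Finset.card_le_card (crs_subset _ F)) hN)
    (fun u v huv => (mem_crs'.1 huv).2) (NR_mt β F)

omit [Fintype V] in
/-- the bars inside the classes of a map of the bodies -/
theorem noncross_le {B' : Type} [Fintype B'] (β : V → B) (F : Finset (Sym2 V))
    (hF : Sparse β F) (q : B → B') (hq : Function.Surjective q) :
    F.card + 6 * Fintype.card B' ≤ (crs (q ∘ β) F).card + 6 * Fintype.card B := by
  classical
  have h1 : F \ crs (q ∘ β) F ⊆
      (univ : Finset B').biUnion fun c => ins β F (univ.filter fun b => q b = c) := by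
    intro e
    induction e using Sym2.ind with
    | _ u v =>
      intro he
      rw [Finset.mem_sdiff, mem_crs'] at he
      have h2 : q (β u) = q (β v) := by
        by_contra h3
        exact he.2 ⟨he.1, h3⟩
      rw [Finset.mem_biUnion]
      refine ⟨q (β u), Finset.mem_univ _, ?_⟩
      rw [mem_ins']
      exact ⟨he.1, Finset.mem_filter.2 ⟨Finset.mem_univ _, rfl⟩,
        Finset.mem_filter.2 ⟨Finset.mem_univ _, h2.symm⟩⟩
  have h2 := (Finset.card_le_card h1).trans Finset.card_biUnion_le
  have h3 : ∑ c : B', ((ins β F (univ.filter fun b => q b = c)).card + 6) ≤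
      ∑ c : B', 6 * (univ.filter fun b => q b = c).card := by
    apply Finset.sum_le_sum
    intro c _
    apply hF
    obtain ⟨b, hb⟩ := hq c
    exact ⟨b, Finset.mem_filter.2 ⟨Finset.mem_univ _, hb⟩⟩
  rw [Finset.sum_add_distrib, ← Finset.mul_sum] at h3
  have h4 : ∑ c : B', (univ.filter fun b => q b = c).card = Fintype.card B := by
    rw [← Finset.card_univ, Finset.card_eq_sum_card_fiberwise (f := q) (t := univ)
      (fun _ _ => Finset.mem_univ _)]
  have h5 : ∑ c : B', 6 = 6 * Fintype.card B' := by simp [mul_comm]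
  have h6 := Finset.card_sdiff_add_card_eq_card (crs_subset (q ∘ β) F)
  omega

/-- the ends of a bar do not move together without the bar -/
theorem factA {N : ℕ} (IH : ∀ m < N, PP m) (β : V → B) (F : Finset (Sym2 V))
    (hcap : Cap F) (hN : F.card ≤ N) (hsp : Sparse β F) [DecidableEq V] {x y : V}
    (he : s(x, y) ∈ F) :
    ∃ n ∈ GB β (F.erase s(x, y)), n (β x) ≠ n (β y) := by
  classical
  by_contra hcon
  push Not at hcon
  set F' := F.erase s(x, y) with hF'
  have hsub : F' ⊆ F := Finset.erase_subset _ _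
  have hcard : F'.card + 1 = F.card := Finset.card_erase_add_one he
  have h1 := sparse_mt IH β F' (hcap.mono hsub) (by omega)
  have h2 := gb_mt β F'
  have h3 := IH (crs (Quotient.mk (mt β F') ∘ β) F').card
    (lt_of_le_of_lt (Finset.card_le_card (crs_subset _ F')) (by omega)) V (Quotient (mt β F'))
    (Quotient.mk (mt β F') ∘ β) _ rfl ((hcap.mono hsub).mono (crs_subset _ F')) h1
  have h4 := IH F'.card (by omega) V B β F' rfl (hcap.mono hsub) (hsp.mono hsub)
  have h5 := noncross_le β F hsp (Quotient.mk (mt β F')) Quotient.mk_surjective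
  have h6 : crs (Quotient.mk (mt β F') ∘ β) F = crs (Quotient.mk (mt β F') ∘ β) F' := by
    ext e
    rw [mem_crs, mem_crs, hF', Finset.mem_erase]
    constructor
    · rintro ⟨h7, h8⟩
      refine ⟨⟨?_, h7⟩, h8⟩
      rintro rfl
      apply h8
      have h9 : (Quotient.mk (mt β F') ∘ β) x = (Quotient.mk (mt β F') ∘ β) y :=
        Quotient.sound (fun n hn => hcon n hn)
      intro u hu v hv
      rcases Sym2.mem_iff.1 hu with rfl | rfl <;> rcases Sym2.mem_iff.1 hv with rfl | rfl
      · rfl
      · exact h9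
      · exact h9.symm
      · rfl
    · rintro ⟨⟨-, h7⟩, h8⟩
      exact ⟨h7, h8⟩
  rw [h6] at h5
  omega

end nr

end Pool.Agent.Y530.BB
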