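import Mathlib
import Pool.Agent.Y530.BB.Sys
import Pool.Agent.W824.BJ.Lie

/-!
# The Lie algebra lemma for bodies joined by bars
-/

set_option autoImplicit false

namespace Pool.Agent.Y530.BB

open Finset Module Pool.Agent.W824.BJ

section deriv

variable {V B : Type*}

theorem der_pr {R : Type*} [CommRing R] [Algebra ℚ R] (D : Derivation ℚ R R) (c : Fin 6 → R)
    (X Y : Fin 4 → R) :
    D (pr c X Y) = pr (fun l => D (c l)) X Y + pr c (fun l => D (X l)) Y +
      pr c X (fun l => D (Y l)) := by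
  simp [pr, Derivation.leibniz]
  ring

theorem Dm_pr (β : V → B) (m : B → Fin 6 → PR V) (c : Fin 6 → PR V) (u v : V) :
    Dm β m (pr c (tx V u) (tx V v)) =
      pr (fun l => Dm β m (c l)) (tx V u) (tx V v) + pr c (ev (m (β u)) (tx V u)) (tx V v) +
      pr c (tx V u) (ev (m (β v)) (tx V v)) := by
  have e : ∀ w, (fun l => Dm β m (tx V w l)) = ev (m (β w)) (tx V w) :=
    fun w => funext fun l => Dm_tx β m w l
  rw [der_pr, e u, e v]

theorem pr_eq_dot {R : Type*} [CommRing R] (c : Fin 6 → R) (X Z : Fin 4 → R) :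
    pr c X Z = - (ev c X ⬝ᵥ Z) := by
  rw [pr_swap, ← dot_ev, dotProduct_comm]

/-- the identity behind the closure under commutators -/
theorem comm_id {R : Type*} [CommRing R] (a b c d : Fin 6 → R) (X Y : Fin 4 → R) :
    pr (a - b) (ev c X) Y + pr (a - b) X (ev d Y) -
      (pr (c - d) (ev a X) Y + pr (c - d) X (ev b Y)) =
      pr (br a c) X Y - pr (br b d) X Y := by
  have s1 : ∀ p q : Fin 6 → R, pr p (ev q X) Y = ev q X ⬝ᵥ ev p Y := fun p q =>
    (dot_ev p _ _).symm
  have s2 : ∀ p q : Fin 6 → R, pr p X (ev q Y) = - (ev p X ⬝ᵥ ev q Y) := fun p q =>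
    pr_eq_dot p _ _
  have s3 : ∀ p q : Fin 6 → R, pr (br p q) X Y = - (ev p X ⬝ᵥ ev q Y) + ev q X ⬝ᵥ ev p Y := by
    intro p q
    rw [← dot_ev, ev_br, dotProduct_sub, dot_ev, dot_ev, s2, s2]
    ring
  rw [pr_sub, pr_sub, pr_sub, pr_sub, s1, s1, s1, s1, s2, s2, s2, s2, s3, s3]
  ring

theorem lieM_bar (β : V → B) (F : Finset (Sym2 V)) {n m : B → Fin 6 → PR V}
    (hn : n ∈ BM β F (tx V)) (hm : m ∈ BM β F (tx V)) :
    lieM β n m ∈ BM β F (tx V) := by
  intro u v he
  have h1 := congrArg (Dm β m) (hn u v he)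
  have h2 := congrArg (Dm β n) (hm u v he)
  rw [Dm_pr, map_zero] at h1 h2
  have h3 := comm_id (n (β u)) (n (β v)) (m (β u)) (m (β v)) (tx V u) (tx V v)
  have h4 : pr (lieM β n m (β u) - lieM β n m (β v)) (tx V u) (tx V v) =
      pr (fun l => Dm β m ((n (β u) - n (β v)) l)) (tx V u) (tx V v) -
      pr (fun l => Dm β n ((m (β u) - m (β v)) l)) (tx V u) (tx V v) +
      (pr (br (n (β u)) (m (β u))) (tx V u) (tx V v) -
        pr (br (n (β v)) (m (β v))) (tx V u) (tx V v)) := by
    unfold lieM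
    simp only [pr, Pi.sub_apply, Pi.add_apply, map_sub]
    ring
  rw [h4, ← h3]
  linear_combination h1 - h2

theorem lie_bar_key (β : V → B) (F : Finset (Sym2 V)) {v1 v2 v3 : B} (a b : PR V)
    (hrel : ∀ n ∈ BM β F (tx V), n v1 = 0 → b • n v3 = a • n v2)
    {n m : B → Fin 6 → PR V} (hn : n ∈ BM β F (tx V)) (hm : m ∈ BM β F (tx V))
    (hn1 : n v1 = 0) (hm1 : m v1 = 0) :
    (b * Dm β m a - a * Dm β m b) • n v2 - (b * Dm β n a - a * Dm β n b) • m v2 =
      (a * (b - a)) • br (n v2) (m v2) := by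
  have hk1 : lieM β n m v1 = 0 := by
    unfold lieM
    rw [hn1, hm1]
    funext i
    simp [br]
    fin_cases i <;> simp
  have e1 := hrel n hn hn1
  have e2 := hrel m hm hm1
  have e5 := hrel _ (lieM_bar β F hn hm) hk1
  have e6 : (b * b) • br (n v3) (m v3) = (a * a) • br (n v2) (m v2) := by
    rw [← br_smul_smul, ← br_smul_smul, e1, e2]
  funext i
  have f1 := congrFun e1 i
  have f2 := congrFun e2 i
  have f5 := congrFun e5 i
  have f6 := congrFun e6 i
  simp only [Pi.smul_apply, smul_eq_mul, lieM, Pi.add_apply, Pi.sub_apply] at f1 f2 f5 f6 ⊢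
  have f3 := congrArg (Dm β m) f1
  have f4 := congrArg (Dm β n) f2
  rw [Derivation.leibniz, Derivation.leibniz] at f3 f4
  simp only [smul_eq_mul] at f3 f4
  linear_combination b * f5 - b * f3 + b * f4 - f6 + Dm β m b * f1 - Dm β n b * f2

end deriv

section final

variable {V B : Type*}

theorem emb_bar (β : V → B) (F : Finset (Sym2 V)) {l : B → Fin 6 → PR V} :
    emb l ∈ GB β F ↔ l ∈ BM β F (tx V) := by
  unfold GB
  rw [mem_bm, mem_bm]
  refine forall₂_congr fun u v => ?_
  have h : pr (emb l (β u) - emb l (β v)) (gx V u) (gx V v) =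
      algebraMap (PR V) (PK V) (pr (l (β u) - l (β v)) (tx V u) (tx V v)) := by
    simp [pr, emb, gx]
  rw [h]
  constructor
  · intro h1 he
    apply IsFractionRing.injective (PR V) (PK V)
    rw [h1 he, map_zero]
  · intro h1 he
    rw [h1 he, map_zero]

theorem scale_bar [Finite B] (β : V → B) (F : Finset (Sym2 V)) {l : B → Fin 6 → PK V}
    (hl : l ∈ GB β F) : ∃ r : PR V, r ≠ 0 ∧ ∃ l' ∈ BM β F (tx V),
      emb l' = algebraMap (PR V) (PK V) r • l := by
  obtain ⟨r, hr⟩ := IsLocalization.exist_integer_multiples_of_finite (nonZeroDivisors (PR V))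
    (fun c : B × Fin 6 => l c.1 c.2)
  choose l' hl' using hr
  have h1 : emb (fun v i => l' (v, i)) = algebraMap (PR V) (PK V) r • l := by
    funext v i
    change algebraMap (PR V) (PK V) (l' (v, i)) = algebraMap (PR V) (PK V) r * l v i
    rw [hl' (v, i), Algebra.smul_def]
  refine ⟨r, nonZeroDivisors.ne_zero r.2, fun v i => l' (v, i), ?_, h1⟩
  rw [← emb_bar, h1]
  exact Submodule.smul_mem _ _ hl

theorem const_bar {k : Type*} [CommRing k] (β : V → B) (F : Finset (Sym2 V)) (y : V → Fin 4 → k)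
    (c : Fin 6 → k) : (fun _ => c) ∈ BM β F y := by
  intro u v _
  rw [sub_self, pr_zero]

/-- **The Lie algebra lemma.** -/
theorem lie_bar [Finite B] (β : V → B) (F : Finset (Sym2 V)) {v1 v2 v3 : B} (ρ : PK V)
    (h0 : ρ ≠ 0) (h1 : ρ ≠ 1) (hrel : ∀ n ∈ GB β F, n v3 - n v1 = ρ • (n v2 - n v1)) :
    ∃ n m : GB β F, ∀ l, ∃ a b : PK V, dif (GB β F) v1 v2 (l - a • n - b • m) = 0 := by
  obtain ⟨a, b, hb, hρ⟩ := IsFractionRing.div_surjective (A := PR V) ρ
  have hb0 : b ≠ 0 := nonZeroDivisors.ne_zero hb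
  have hb' : algebraMap (PR V) (PK V) b ≠ 0 := by
    intro h
    exact hb0 (IsFractionRing.injective (PR V) (PK V) (h.trans (map_zero _).symm))
  have ha0 : a ≠ 0 := by
    rintro rfl
    apply h0
    rw [← hρ, map_zero, zero_div]
  have hab : b - a ≠ 0 := by
    intro h
    apply h1
    rw [← hρ, ← sub_eq_zero.1 h, div_self hb']
  have hR : ∀ n ∈ BM β F (tx V), n v1 = 0 → b • n v3 = a • n v2 := by
    intro n hn hn1
    have h2 := hrel _ ((emb_bar β F).2 hn)
    funext i
    have h3 := congrFun h2 i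
    have h4 : n v1 i = 0 := congrFun hn1 i
    simp only [Pi.sub_apply, Pi.smul_apply, smul_eq_mul, emb, h4, map_zero, sub_zero] at h3
    apply IsFractionRing.injective (PR V) (PK V)
    simp only [Pi.smul_apply, smul_eq_mul, map_mul]
    rw [h3, ← hρ]
    field_simp
  have key := fun (n m : B → Fin 6 → PR V) (hn : n ∈ BM β F (tx V)) (hm : m ∈ BM β F (tx V))
    (hn1 : n v1 = 0) (hm1 : m v1 = 0) => lie_bar_key β F a b hR hn hm hn1 hm1
  have gauge : ∀ l : GB β F, ∃ r : PR V, r ≠ 0 ∧ ∃ l' ∈ BM β F (tx V), l' v1 = 0 ∧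
      (fun i => algebraMap (PR V) (PK V) (l' v2 i)) =
        algebraMap (PR V) (PK V) r • dif (GB β F) v1 v2 l := by
    intro l
    obtain ⟨r, hr, l', hl', hl''⟩ := scale_bar β F l.2
    refine ⟨r, hr, l' - fun _ => l' v1, Submodule.sub_mem _ hl' (const_bar _ _ _ _), ?_, ?_⟩
    · rw [Pi.sub_apply, sub_self]
    · funext i
      have e1 := congrFun (congrFun hl'' v2) i
      have e2 := congrFun (congrFun hl'' v1) i
      simp only [emb, Pi.smul_apply, smul_eq_mul] at e1 e2
      simp only [Pi.sub_apply, map_sub, dif_apply, Pi.smul_apply, smul_eq_mul, e1, e2]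
      ring
  by_cases hmu : ∃ m ∈ BM β F (tx V), m v1 = 0 ∧ b * Dm β m a - a * Dm β m b ≠ 0
  · obtain ⟨m, hm, hm1, hmu⟩ := hmu
    set μ := b * Dm β m a - a * Dm β m b with hμ
    have claim : ∀ n ∈ BM β F (tx V), n v1 = 0 →
        μ • n v2 = (b * Dm β n a - a * Dm β n b) • m v2 := by
      intro n hn hn1
      set ν := b * Dm β n a - a * Dm β n b with hν
      have h2 : μ • n - ν • m ∈ BM β F (tx V) :=
        Submodule.sub_mem _ (Submodule.smul_mem _ _ hn) (Submodule.smul_mem _ _ hm)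
      have h3 : (μ • n - ν • m) v1 = 0 := by
        rw [Pi.sub_apply, Pi.smul_apply, Pi.smul_apply, hn1, hm1, smul_zero, smul_zero, sub_zero]
      have h4 := key _ _ h2 hm h3 hm1
      rw [Dm_comb, ← hμ] at h4
      have h5 : b * (μ • Dm β n - ν • Dm β m) a - a * (μ • Dm β n - ν • Dm β m) b = 0 := by
        simp only [Derivation.sub_apply, Derivation.smul_apply, smul_eq_mul]
        rw [hμ, hν]
        ring
      rw [h5, zero_smul, sub_zero] at h4
      have h6 : (μ • n - ν • m) v2 ⬝ᵥ (μ • n - ν • m) v2 = 0 := by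
        have h7 := congrArg (fun c => c ⬝ᵥ (μ • n - ν • m) v2) h4
        simp only [smul_dotProduct] at h7
        rw [br_dot, smul_zero, smul_eq_mul] at h7
        exact (mul_eq_zero.1 h7).resolve_left hmu
      have h7 := sumsq h6
      rw [Pi.sub_apply, Pi.smul_apply, Pi.smul_apply, sub_eq_zero] at h7
      exact h7
    refine ⟨⟨emb m, (emb_bar β F).2 hm⟩, 0, fun l => ?_⟩
    obtain ⟨r, hr, l', hl', hl1, hl2⟩ := gauge l
    have h2 := claim l' hl' hl1
    set ν := b * Dm β l' a - a * Dm β l' b with hν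
    have hμr : algebraMap (PR V) (PK V) (μ * r) ≠ 0 := by
      intro h
      exact (mul_ne_zero hmu hr) (IsFractionRing.injective (PR V) (PK V) (h.trans (map_zero _).symm))
    refine ⟨algebraMap (PR V) (PK V) ν / algebraMap (PR V) (PK V) (μ * r), 0, ?_⟩
    rw [zero_smul, sub_zero, map_sub, map_smul, sub_eq_zero]
    funext i
    have h3 := congrFun hl2 i
    have h4 := congrArg (algebraMap (PR V) (PK V)) (congrFun h2 i)
    have h5 : dif (GB β F) v1 v2 ⟨emb m, (emb_bar β F).2 hm⟩ i =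
        algebraMap (PR V) (PK V) (m v2 i) := by
      rw [dif_apply]
      change algebraMap (PR V) (PK V) (m v2 i) - algebraMap (PR V) (PK V) (m v1 i) = _
      rw [hm1, Pi.zero_apply, map_zero, sub_zero]
    simp only [Pi.smul_apply, smul_eq_mul, map_mul] at h3 h4 ⊢
    rw [h5, div_mul_eq_mul_div, eq_div_iff (by rw [← map_mul]; exact hμr), ← h4, h3]
    ring
  · push Not at hmu
    apply comm_rank
    intro n m
    obtain ⟨r, hr, n', hn', hn1, hn2⟩ := gauge n
    obtain ⟨r', hr', m', hm', hm1, hm2⟩ := gauge m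
    have h2 := key n' m' hn' hm' hn1 hm1
    rw [hmu n' hn' hn1, hmu m' hm' hm1, zero_smul, zero_smul, sub_zero] at h2
    have h3 : br (n' v2) (m' v2) = 0 := by
      rcases smul_eq_zero.1 h2.symm with h4 | h4
      · exact absurd h4 (mul_ne_zero ha0 hab)
      · exact h4
    have h4 : (algebraMap (PR V) (PK V) r * algebraMap (PR V) (PK V) r') •
        br (dif (GB β F) v1 v2 n) (dif (GB β F) v1 v2 m) = 0 := by
      rw [← br_smul_smul, ← hn2, ← hm2]
      funext i
      rw [← map_br, h3, Pi.zero_apply, map_zero, Pi.zero_apply]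
    rcases smul_eq_zero.1 h4 with h5 | h5
    · exfalso
      rw [← map_mul] at h5
      exact (mul_ne_zero hr hr')
        (IsFractionRing.injective (PR V) (PK V) (h5.trans (map_zero _).symm))
    · exact h5

end final

end Pool.Agent.Y530.BB
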