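import Mathlib
import Pool.Agent.Y530.BB.Step

/-!
# The rank of a sparse system of bars with at most two bars at each point
-/

set_option autoImplicit false

namespace Pool.Agent.Y530.BB

open Finset Module Pool.Agent.W824.BJ

section map

variable {V B : Type} [Fintype V] [Fintype B]

/-- the image of a set of bars under an embedding of the points -/
def mpF {V V' : Type} (j : V ↪ V') (F : Finset (Sym2 V)) : Finset (Sym2 V') := F.map j.sym2Map

theorem mem_mpF {V V' : Type} {j : V ↪ V'} {F : Finset (Sym2 V)} {a b : V} :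
    s(j a, j b) ∈ mpF j F ↔ s(a, b) ∈ F := by
  unfold mpF
  have h : s(j a, j b) = j.sym2Map s(a, b) := rfl
  rw [h, Finset.mem_map']

theorem mem_mpF' {V V' : Type} {j : V ↪ V'} {F : Finset (Sym2 V)} {e : Sym2 V'}
    (h : e ∈ mpF j F) : ∃ e0 ∈ F, e = Sym2.map j e0 := by
  obtain ⟨e0, h0, rfl⟩ := Finset.mem_map.1 h
  exact ⟨e0, h0, rfl⟩

theorem BM_mp {k : Type*} [CommRing k] {V V' B : Type} (j : V ↪ V') (β' : V' → B)
    (F : Finset (Sym2 V)) (y : V' → Fin 4 → k) :
    BM β' (mpF j F) y = BM (β' ∘ j) F (y ∘ j) := by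
  ext n
  constructor
  · intro h u v huv
    exact h (j u) (j v) (mem_mpF.2 huv)
  · intro h u v huv
    obtain ⟨e0, h0, he⟩ := mem_mpF' huv
    induction e0 using Sym2.ind with
    | _ a b =>
      rw [Sym2.map_mk] at he
      rcases Sym2.eq_iff.1 he with ⟨rfl, rfl⟩ | ⟨rfl, rfl⟩
      · exact h a b h0
      · exact h b a (by rw [Sym2.eq_swap]; exact h0)

theorem gb_mp {V' : Type} [Fintype V'] (j : V ↪ V') (β' : V' → B) (F : Finset (Sym2 V)) :
    gb β' (mpF j F) = gb (β' ∘ j) F := by
  have h1 : AlgebraicIndependent ℚ fun c : V × Fin 4 => (gx V' ∘ j) c.1 c.2 := by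
    have h2 := MvPolynomial.algebraicIndependent_X (V' × Fin 4) ℚ
    have h3 := h2.comp (fun c : V × Fin 4 => (j c.1, c.2)) (by
      rintro ⟨a, i⟩ ⟨b, l⟩ hab
      rw [Prod.mk.injEq] at hab
      exact Prod.ext (j.injective hab.1) hab.2)
    exact h3.map' (f := IsScalarTower.toAlgHom ℚ (PR V') (PK V'))
      (IsFractionRing.injective (PR V') (PK V'))
  rw [← gb_eq (β' ∘ j) F (gx V' ∘ j) h1, ← BM_mp]
  rfl

omit [Fintype V] in
theorem cap_mp {V' : Type} {j : V ↪ V'} {F : Finset (Sym2 V)} (h : Cap F) : Cap (mpF j F) := by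
  classical
  intro v
  unfold mpF
  rw [Finset.filter_map, Finset.card_map]
  by_cases hv : ∃ w, j w = v
  · obtain ⟨w, rfl⟩ := hv
    refine le_trans (Finset.card_le_card ?_) (h w)
    intro e he
    rw [Finset.mem_filter] at he ⊢
    refine ⟨he.1, ?_⟩
    have h1 : j w ∈ Sym2.map j e := he.2
    obtain ⟨a, ha, haw⟩ := Sym2.mem_map.1 h1
    rw [← j.injective haw]
    exact ha
  · have h1 : (F.filter ((fun e => v ∈ e) ∘ j.sym2Map)) = ∅ := by
      rw [Finset.filter_eq_empty_iff]
      intro e _ he
      have h2 : v ∈ Sym2.map j e := he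
      obtain ⟨a, _, ha⟩ := Sym2.mem_map.1 h2
      exact hv ⟨a, ha⟩
    rw [h1]
    exact Nat.zero_le _

omit [Fintype V] [Fintype B] in
theorem sparse_mp {V' : Type} {j : V ↪ V'} {β' : V' → B} {F : Finset (Sym2 V)}
    (h : Sparse (β' ∘ j) F) : Sparse β' (mpF j F) := by
  classical
  intro C hC
  refine le_trans (Nat.add_le_add_right ?_ 6) (h C hC)
  have h1 : ins β' (mpF j F) C ⊆ (ins (β' ∘ j) F C).map j.sym2Map := by
    intro e he
    rw [mem_ins] at he
    obtain ⟨e0, h0, rfl⟩ := mem_mpF' he.1
    rw [Finset.mem_map]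
    refine ⟨e0, ?_, rfl⟩
    rw [mem_ins]
    exact ⟨h0, fun v hv => he.2 (j v) (Sym2.mem_map.2 ⟨v, hv, rfl⟩)⟩
  exact (Finset.card_le_card h1).trans (Finset.card_map _).le

end map

section main

variable {V B : Type} [Fintype V] [Fintype B]

omit [Fintype V] in
theorem two_bars {F : Finset (Sym2 V)} (hcap : Cap F) {x : V} {e1 e2 : Sym2 V} (h1 : e1 ∈ F)
    (h2 : e2 ∈ F) (hne : e1 ≠ e2) (hx1 : x ∈ e1) (hx2 : x ∈ e2) :
    ∀ e ∈ F, x ∈ e → e = e1 ∨ e = e2 := by
  classical
  intro e he hx
  have h3 : ({e1, e2} : Finset (Sym2 V)) ⊆ F.filter fun e => x ∈ e := by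
    intro e' he'
    rcases Finset.mem_insert.1 he' with rfl | h
    · exact Finset.mem_filter.2 ⟨h1, hx1⟩
    · rw [Finset.mem_singleton.1 h]
      exact Finset.mem_filter.2 ⟨h2, hx2⟩
  have h4 := Finset.eq_of_subset_of_card_le h3 (by
    rw [Finset.card_pair hne]
    have := hcap x
    convert this)
  have h5 : e ∈ F.filter fun e => x ∈ e := Finset.mem_filter.2 ⟨he, hx⟩
  rw [← h4, Finset.mem_insert, Finset.mem_singleton] at h5
  exact h5

/-- the step for two bars, in terms of the whole system -/
theorem stepTwo' {N : ℕ} (IH : ∀ m < N, PP m) (β : V → B) (F : Finset (Sym2 V)) {x y z : V}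
    (hN : F.card = N) (hyz : y ≠ z) (hcap : Cap F) (hsp : Sparse β F)
    (h1 : s(x, y) ∈ F) (h2 : s(x, z) ∈ F) (hy : ∀ e ∈ F, y ∈ e → e = s(x, y)) :
    gb β F + N = 6 * Fintype.card B := by
  classical
  have hne : s(x, y) ≠ s(x, z) := by
    intro h
    rcases Sym2.eq_iff.1 h with ⟨-, h⟩ | ⟨ha, hb⟩
    · exact hyz h
    · exact hyz (hb.trans ha)
  have hx := two_bars hcap h1 h2 hne (Sym2.mem_mk_left _ _) (Sym2.mem_mk_left _ _)
  set F0 := (F.erase s(x, y)).erase s(x, z) with hF0
  have e1 : insert s(x, z) F0 = F.erase s(x, y) :=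
    Finset.insert_erase (Finset.mem_erase.2 ⟨hne.symm, h2⟩)
  have e2 : insert s(x, y) (insert s(x, z) F0) = F := by
    rw [e1]
    exact Finset.insert_erase h1
  have c1 : (F.erase s(x, y)).card + 1 = F.card := Finset.card_erase_add_one h1
  have c2 : F0.card + 1 = (F.erase s(x, y)).card :=
    Finset.card_erase_add_one (Finset.mem_erase.2 ⟨hne.symm, h2⟩)
  have h := stepTwo IH β F0 (x := x) (y := y) (z := z) (Finset.notMem_erase _ _)
    (by rw [e1]; exact Finset.notMem_erase _ _) (by omega) hyz (by rw [e2]; exact hcap)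
    (by rw [e2]; exact hsp)
    (by
      intro e he hxe
      rw [hF0, Finset.mem_erase, Finset.mem_erase] at he
      rcases hx e he.2.2 hxe with h | h
      · exact he.2.1 h
      · exact he.1 h)
    (by
      intro e he hye
      rw [hF0, Finset.mem_erase, Finset.mem_erase] at he
      exact he.2.1 (hy e he.2.2 hye))
  rw [e2] at h
  exact h

/-- the step for three bars, in terms of the whole system -/
theorem stepThree' {N : ℕ} (IH : ∀ m < N, PP m) (β : V → B) (F : Finset (Sym2 V))
    {x y z u o : V} (hN : F.card = N) (hyz : y ≠ z) (hxu : x ≠ u) (hcap : Cap F)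
    (hsp : Sparse β F) (h1 : s(x, y) ∈ F) (h2 : s(x, z) ∈ F) (h3 : s(y, u) ∈ F)
    (ho : ∀ e ∈ F, o ∉ e) (hβ : β o = β x) :
    gb β F + N = 6 * Fintype.card B := by
  classical
  have hxy : x ≠ y := fun h => hsp.ne h1 (by rw [h])
  have hxz : x ≠ z := fun h => hsp.ne h2 (by rw [h])
  have hyu : y ≠ u := fun h => hsp.ne h3 (by rw [h])
  have hox : o ≠ x := fun h => ho _ h1 (by rw [h]; exact Sym2.mem_mk_left _ _)
  have hoy : o ≠ y := fun h => ho _ h1 (by rw [h]; exact Sym2.mem_mk_right _ _)
  have hoz : o ≠ z := fun h => ho _ h2 (by rw [h]; exact Sym2.mem_mk_right _ _)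
  have hou : o ≠ u := fun h => ho _ h3 (by rw [h]; exact Sym2.mem_mk_right _ _)
  have n12 : s(x, y) ≠ s(x, z) := by
    intro h
    rcases Sym2.eq_iff.1 h with ⟨-, h⟩ | ⟨ha, hb⟩
    · exact hyz h
    · exact hyz (hb.trans ha)
  have n13 : s(x, y) ≠ s(y, u) := by
    intro h
    rcases Sym2.eq_iff.1 h with ⟨h, -⟩ | ⟨h, -⟩
    · exact hxy h
    · exact hxu h
  have n23 : s(x, z) ≠ s(y, u) := by
    intro h
    rcases Sym2.eq_iff.1 h with ⟨h, -⟩ | ⟨h, -⟩
    · exact hxy h
    · exact hxu h
  have hx := two_bars hcap h1 h2 n12 (Sym2.mem_mk_left _ _) (Sym2.mem_mk_left _ _)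
  have hy := two_bars hcap h1 h3 n13 (Sym2.mem_mk_right _ _) (Sym2.mem_mk_left _ _)
  set F0 := ((F.erase s(x, y)).erase s(x, z)).erase s(y, u) with hF0
  have i2 : s(x, z) ∈ F.erase s(x, y) := Finset.mem_erase.2 ⟨n12.symm, h2⟩
  have i3 : s(y, u) ∈ (F.erase s(x, y)).erase s(x, z) :=
    Finset.mem_erase.2 ⟨n23.symm, Finset.mem_erase.2 ⟨n13.symm, h3⟩⟩
  have e0 : insert s(y, u) F0 = (F.erase s(x, y)).erase s(x, z) := Finset.insert_erase i3
  have e1 : insert s(x, z) (insert s(y, u) F0) = F.erase s(x, y) := by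
    rw [e0]
    exact Finset.insert_erase i2
  have e2 : insert s(x, y) (insert s(x, z) (insert s(y, u) F0)) = F := by
    rw [e1]
    exact Finset.insert_erase h1
  have c1 : (F.erase s(x, y)).card + 1 = F.card := Finset.card_erase_add_one h1
  have c2 : ((F.erase s(x, y)).erase s(x, z)).card + 1 = (F.erase s(x, y)).card :=
    Finset.card_erase_add_one i2
  have c3 : F0.card + 1 = ((F.erase s(x, y)).erase s(x, z)).card :=
    Finset.card_erase_add_one i3
  have m0 : ∀ {e}, e ∈ F0 → e ≠ s(x, y) ∧ e ≠ s(x, z) ∧ e ≠ s(y, u) ∧ e ∈ F := by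
    intro e he
    rw [hF0, Finset.mem_erase, Finset.mem_erase, Finset.mem_erase] at he
    exact ⟨he.2.2.1, he.2.1, he.1, he.2.2.2⟩
  have hx0 : ∀ e ∈ F0, x ∉ e := by
    intro e he hxe
    obtain ⟨a, b, -, d⟩ := m0 he
    rcases hx e d hxe with h | h
    · exact a h
    · exact b h
  have hy0 : ∀ e ∈ F0, y ∉ e := by
    intro e he hye
    obtain ⟨a, -, c, d⟩ := m0 he
    rcases hy e d hye with h | h
    · exact a h
    · exact c h
  have ho0 : ∀ e ∈ F0, o ∉ e := fun e he => ho e (m0 he).2.2.2
  -- the split system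
  set F1 := insert s(o, z) F0 with hF1
  have j1 : s(o, z) ∉ F0 := fun h => ho0 _ h (Sym2.mem_mk_left _ _)
  have j2 : s(y, u) ∉ F1 := by
    rw [hF1, Finset.mem_insert, not_or]
    refine ⟨?_, fun h => (m0 h).2.2.1 rfl⟩
    intro h
    exact ho _ h3 (by rw [h]; exact Sym2.mem_mk_left _ _)
  have j3 : s(y, x) ∉ insert s(y, u) F1 := by
    rw [hF1, Finset.mem_insert, Finset.mem_insert, not_or, not_or]
    refine ⟨?_, ?_, fun h => (m0 h).1 Sym2.eq_swap⟩
    · rw [Sym2.eq_swap]
      exact n13
    · intro h
      exact ho _ h1 (by rw [Sym2.eq_swap, h]; exact Sym2.mem_mk_left _ _)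
  have hset : insert s(y, x) (insert s(y, u) F1) =
      insert s(x, y) (insert s(o, z) (insert s(y, u) F0)) := by
    rw [hF1, Finset.insert_comm s(y, u) s(o, z), Sym2.eq_swap]
  have hset' : insert s(x, y) (insert s(o, z) (insert s(y, u) F0)) =
      insert s(o, z) (F.erase s(x, z)) := by
    ext e
    have h5 : F = insert s(x, y) (insert s(x, z) (insert s(y, u) F0)) := e2.symm
    have h6 : e ∈ F.erase s(x, z) ↔ e ≠ s(x, z) ∧ e ∈ F := Finset.mem_erase
    rw [Finset.mem_insert, Finset.mem_insert, Finset.mem_insert, Finset.mem_insert, h6]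
    constructor
    · rintro (rfl | rfl | rfl | h)
      · exact Or.inr ⟨n12, h1⟩
      · exact Or.inl rfl
      · exact Or.inr ⟨n23.symm, h3⟩
      · exact Or.inr ⟨(m0 h).2.1, (m0 h).2.2.2⟩
    · rintro (rfl | ⟨h6, h7⟩)
      · exact Or.inr (Or.inl rfl)
      · rw [h5, Finset.mem_insert, Finset.mem_insert, Finset.mem_insert] at h7
        rcases h7 with rfl | rfl | rfl | h8
        · exact Or.inl rfl
        · exact absurd rfl h6
        · exact Or.inr (Or.inr (Or.inl rfl))
        · exact Or.inr (Or.inr (Or.inr h8))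
  have hcap' : Cap (insert s(o, z) (F.erase s(x, z))) := by
    intro v
    rw [Finset.filter_insert]
    have hsub : (F.erase s(x, z)).filter (fun e => v ∈ e) ⊆ F.filter fun e => v ∈ e :=
      Finset.filter_subset_filter _ (Finset.erase_subset _ _)
    split_ifs with hv
    · refine (Finset.card_insert_le _ _).trans ?_
      rcases Sym2.mem_iff.1 hv with rfl | rfl
      · have h5 : (F.erase s(x, z)).filter (fun e => v ∈ e) = ∅ := by
          rw [Finset.filter_eq_empty_iff]
          intro e he
          exact ho e (Finset.mem_of_mem_erase he)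
        rw [h5]
        simp
      · have h5 : (F.erase s(x, v)).filter (fun e => v ∈ e) ⊂ F.filter fun e => v ∈ e := by
          rw [Finset.ssubset_iff_of_subset hsub]
          refine ⟨s(x, v), Finset.mem_filter.2 ⟨h2, Sym2.mem_mk_right _ _⟩, ?_⟩
          intro h
          exact Finset.notMem_erase _ _ (Finset.mem_filter.1 h).1
        have h6 := Finset.card_lt_card h5
        have h7 : (F.filter fun e => v ∈ e).card ≤ 2 := by
          have := hcap v
          convert this
        have h8 : ((F.erase s(x, v)).filter fun e => v ∈ e).card + 1 ≤ 2 := by omega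
        convert h8
    · have h7 : (F.filter fun e => v ∈ e).card ≤ 2 := by
        have := hcap v
        convert this
      have h8 := (Finset.card_le_card hsub).trans h7
      convert h8
  have hsp' : Sparse β (insert s(o, z) (F.erase s(x, z))) := by
    intro C hC
    refine le_trans (Nat.add_le_add_right ?_ 6) (hsp C hC)
    by_cases hzC : s(x, z) ∈ ins β F C
    · have h5 : ins β (insert s(o, z) (F.erase s(x, z))) C ⊆
          insert s(o, z) ((ins β F C).erase s(x, z)) := by
        intro e he
        rw [mem_ins, Finset.mem_insert, Finset.mem_erase] at he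
        rw [Finset.mem_insert, Finset.mem_erase, mem_ins]
        rcases he.1 with h | h
        · exact Or.inl h
        · exact Or.inr ⟨h.1, h.2, he.2⟩
      have h6 := (Finset.card_le_card h5).trans (Finset.card_insert_le _ _)
      have h7 := Finset.card_erase_add_one hzC
      omega
    · apply Finset.card_le_card
      intro e he
      rw [mem_ins, Finset.mem_insert, Finset.mem_erase] at he
      rw [mem_ins]
      rcases he.1 with h | h
      · exfalso
        apply hzC
        rw [mem_ins']
        subst h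
        refine ⟨h2, ?_, he.2 z (Sym2.mem_mk_right _ _)⟩
        rw [← hβ]
        exact he.2 o (Sym2.mem_mk_left _ _)
      · exact ⟨h.2, he.2⟩
  have hP2 := stepTwo IH β F1 (x := y) (y := x) (z := u) j2 j3
    (by rw [hF1, Finset.card_insert_of_notMem j1]; omega) hxu
    (by rw [hset, hset']; exact hcap') (by rw [hset, hset']; exact hsp')
    (by
      intro e he
      rw [hF1, Finset.mem_insert] at he
      rcases he with rfl | he
      · intro h
        rcases Sym2.mem_iff.1 h with h | h
        · exact hoy h.symm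
        · exact hyz h
      · exact hy0 e he)
    (by
      intro e he
      rw [hF1, Finset.mem_insert] at he
      rcases he with rfl | he
      · intro h
        rcases Sym2.mem_iff.1 h with h | h
        · exact hox h.symm
        · exact hxz h
      · exact hx0 e he)
  rw [hset] at hP2
  have h := stepThree IH β F0 (x := x) (y := y) (z := z) (u := u) (o := o)
    (Finset.notMem_erase _ _) (by rw [e0]; exact Finset.notMem_erase _ _)
    (by rw [e1]; exact Finset.notMem_erase _ _) (by omega) hyz hxu (by rw [e2]; exact hcap)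
    (by rw [e2]; exact hsp) hx0 hy0
    (by
      rintro rfl e he hze
      obtain ⟨-, b, c, d⟩ := m0 he
      rcases two_bars hcap h2 h3 n23 (Sym2.mem_mk_right _ _) (Sym2.mem_mk_right _ _) e d hze
        with h | h
      · exact b h
      · exact c h)
    hβ hP2
  rw [e2] at h
  exact h

/-- **The rank of a sparse system of bars** with at most two bars at each point. -/
theorem main_all : ∀ N, PP N := by
  intro N
  induction N using Nat.strong_induction_on with
  | _ N IH =>
    intro V B _ _ β F hN hcap hsp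
    classical
    rcases F.eq_empty_or_nonempty with rfl | ⟨e, he⟩
    · unfold gb GB
      rw [BM_empty, finrank_top', ← hN]
      rfl
    · induction e using Sym2.ind with
      | _ x y =>
        have hxy : x ≠ y := fun h => hsp.ne he (by rw [h])
        by_cases hx : ∃ z, z ≠ y ∧ s(x, z) ∈ F
        · obtain ⟨z, hzy, hz⟩ := hx
          by_cases hy : ∃ u, u ≠ x ∧ s(y, u) ∈ F
          · obtain ⟨u, hux, hu⟩ := hy
            set j : V ↪ Option V := Function.Embedding.some with hj
            set β' : Option V → B := fun a => a.elim (β x) β with hβ'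
            have hβj : β' ∘ j = β := rfl
            have h := stepThree' IH β' (mpF j F) (x := j x) (y := j y) (z := j z) (u := j u)
              (o := none) (by unfold mpF; rw [Finset.card_map, hN])
              (fun h => hzy (j.injective h).symm) (fun h => hux (j.injective h).symm)
              (cap_mp hcap) (sparse_mp (by rw [hβj]; exact hsp)) (mem_mpF.2 he) (mem_mpF.2 hz)
              (mem_mpF.2 hu)
              (by
                intro e he' hn
                obtain ⟨e0, -, rfl⟩ := mem_mpF' he'
                obtain ⟨a, -, ha⟩ := Sym2.mem_map.1 hn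
                cases ha) rfl
            rw [gb_mp, hβj] at h
            exact h
          · push Not at hy
            refine stepTwo' IH β F (x := x) (y := y) (z := z) hN hzy.symm hcap hsp he hz ?_
            rintro e he' ⟨w, rfl⟩
            by_cases hw : w = x
            · rw [hw, Sym2.eq_swap]
            · exact absurd he' (hy w hw)
        · push Not at hx
          have hx' : ∀ e ∈ F, x ∈ e → e = s(x, y) := by
            rintro e he' ⟨w, rfl⟩
            by_cases hw : w = y
            · rw [hw]
            · exact absurd he' (hx w hw)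
          by_cases hy : ∃ u, u ≠ x ∧ s(y, u) ∈ F
          · obtain ⟨u, hux, hu⟩ := hy
            refine stepTwo' IH β F (x := y) (y := x) (z := u) hN hux.symm hcap hsp
              (by rw [Sym2.eq_swap]; exact he) hu ?_
            intro e he' hxe
            rw [hx' e he' hxe, Sym2.eq_swap]
          · push Not at hy
            refine stepOne IH β F hN hcap hsp he hx' ?_
            rintro e he' ⟨w, rfl⟩
            by_cases hw : w = x
            · rw [hw, Sym2.eq_swap]
            · exact absurd he' (hy w hw)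

end main

end Pool.Agent.Y530.BB
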