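import Mathlib
import Pool.Agent.Y530.BB.Main
import Pool.Agent.W824.BJ.Final

/-!
# Graphs whose vertex set is partitioned into rigid parts
-/

set_option autoImplicit false

namespace Pool.Agent.Y530.BB

open Finset Module Pool.Agent.W824.BJ
open Pool.Agent.H283R2.DR hiding rigid_complete
open Pool.Agent.H789R5

section place

variable {V B : Type} [Fintype V] [Fintype B]

/-- the dimension of the space of motions of the bodies at a placement -/
noncomputable def bdB (β : V → B) (F : Finset (Sym2 V)) (p : V → Fin 3 → ℝ) : ℕ :=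
  finrank ℝ (BM β F (hom p))

theorem exists_bdB (β : V → B) (F : Finset (Sym2 V)) : ∃ p : V → Fin 3 → ℝ, bdB β F p = gb β F := by
  obtain ⟨y, hy⟩ := exists_alg (V × Fin 4)
  have h0 : ∀ v, y (v, 3) ≠ 0 := fun v => hy.ne_zero (v, 3)
  refine ⟨fun v => ![y (v, 0) / y (v, 3), y (v, 1) / y (v, 3), y (v, 2) / y (v, 3)], ?_⟩
  unfold bdB
  rw [← gb_eq β F (fun v i => y (v, i)) hy]
  have h1 : ∀ v, hom (fun v => ![y (v, 0) / y (v, 3), y (v, 1) / y (v, 3), y (v, 2) / y (v, 3)]) v
      = (y (v, 3))⁻¹ • fun i => y (v, i) := by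
    intro v
    have := h0 v
    funext i
    fin_cases i
    · simp [hom]; ring
    · simp [hom]; ring
    · simp [hom]; ring
    · simp [hom, this]
  have h2 : BM β F
      (hom (fun v => ![y (v, 0) / y (v, 3), y (v, 1) / y (v, 3), y (v, 2) / y (v, 3)])) =
      BM β F fun v i => y (v, i) := by
    ext n
    rw [mem_bm, mem_bm]
    refine forall₂_congr fun u v => ?_
    refine imp_congr_right fun _ => ?_
    rw [h1 u, h1 v, pr_smul_left, pr_smul_right, mul_eq_zero, mul_eq_zero]
    constructor
    · rintro (h | h | h)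
      · exact absurd h (inv_ne_zero (h0 u))
      · exact absurd h (inv_ne_zero (h0 v))
      · exact h
    · exact fun h => Or.inr (Or.inr h)
  rw [h2]

theorem bdB_good (β : V → B) (F : Finset (Sym2 V)) :
    TA.Good (fun p : V → Fin 3 → ℝ => bdB β F p ≤ gb β F) := by
  classical
  intro p0 p1 h0
  set y : ℝ → V → Fin 4 → ℝ := fun a => hom (p0 + a • (p1 - p0)) with hy
  have hline : ∀ a v, y a v = hom p0 v + a • hom0 (p1 - p0) v := by
    intro a v
    funext i
    fin_cases i <;> simp [hy, hom, hom0]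
  obtain ⟨s, c, hsc⟩ := exists_minor (LinearMap.toMatrix' (bcon β F (hom p0)))
  have hP : PolyF fun a : ℝ => ((LinearMap.toMatrix' (bcon β F (y a))).submatrix s c).det := by
    apply PolyF.det
    intro i l
    change PolyF fun a : ℝ => LinearMap.toMatrix' (bcon β F (y a)) (s i) (c l)
    simp only [LinearMap.toMatrix'_apply]
    change PolyF fun a : ℝ => if s((s i).1, (s i).2) ∈ F then
      pr (fun m => (Pi.single (c l) 1 : B × Fin 6 → ℝ) (β (s i).1, m) -
        (Pi.single (c l) 1 : B × Fin 6 → ℝ) (β (s i).2, m)) (y a (s i).1) (y a (s i).2) else 0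
    by_cases h : s((s i).1, (s i).2) ∈ F
    · simp only [if_pos h, hline]
      exact polyF_pr _ _ _ _ _
    · simp only [if_neg h]
      exact ⟨0, fun t => Polynomial.eval_zero⟩
  obtain ⟨P, hP⟩ := hP
  have hy0 : y 0 = hom p0 := by
    rw [hy]
    simp
  have hP0 : P ≠ 0 := by
    intro h
    have h1 : P.eval 0 = ((LinearMap.toMatrix' (bcon β F (y 0))).submatrix s c).det := hP 0
    rw [h, Polynomial.eval_zero, hy0] at h1
    exact hsc h1.symm
  refine (Polynomial.finite_setOfPred_isRoot hP0).subset ?_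
  intro a ha
  rw [Set.mem_ofPred_eq] at ha ⊢
  by_contra hroot
  apply ha
  have h1 : ((LinearMap.toMatrix' (bcon β F (y a))).submatrix s c).det ≠ 0 := by
    intro h2
    apply hroot
    change P.eval a = 0
    rw [hP a]
    exact h2
  have h2 := le_rank_of_minor _ s c h1
  have h3 := finrank_bm β F (y a)
  have h4 := finrank_bm β F (hom p0)
  change finrank ℝ (BM β F (y a)) ≤ gb β F
  have h5 : finrank ℝ (BM β F (hom p0)) ≤ gb β F := h0
  omega

theorem exists_placeB (β : V → B) (F : Finset (Sym2 V)) :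
    ∃ p : V → Fin 3 → ℝ, MG p ∧ bdB β F p = gb β F := by
  classical
  have h := TA.good_family (E := V → Fin 3 → ℝ)
    (ι := Unit ⊕ (SimpleGraph V ⊕ ((SimpleGraph V × Set V) ⊕ (Σ n : Fin (3 + 2), (Fin n → V)))))
    (fun i p => match i with
      | Sum.inl _ => bdB β F p ≤ gb β F
      | Sum.inr (Sum.inl G) => ∀ p' : V → Fin 3 → ℝ, mo G p ≤ mo G p'
      | Sum.inr (Sum.inr (Sum.inl a)) =>
        (∃ p' : V → Fin 3 → ℝ, RigidOn a.1 a.2 p') → RigidOn a.1 a.2 p
      | Sum.inr (Sum.inr (Sum.inr a)) =>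
        Function.Injective a.2 → AffineIndependent ℝ (fun i => p (a.2 i)))
      ?_ ?_
  · obtain ⟨p, hp⟩ := h
    refine ⟨p, ⟨⟨?_, ?_⟩, ?_⟩, le_antisymm (hp (Sum.inl ())) (gb_le β F (hom p))⟩
    · intro H U p' hp'
      exact hp (Sum.inr (Sum.inr (Sum.inl (H, U)))) ⟨p', hp'⟩
    · intro n x hn hx
      exact hp (Sum.inr (Sum.inr (Sum.inr ⟨⟨n, by omega⟩, x⟩))) hx
    · intro G p'
      exact hp (Sum.inr (Sum.inl G)) p'
  · rintro (⟨⟩ | G | ⟨H, U⟩ | ⟨n, x⟩)
    · exact bdB_good β F
    · exact min_good G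
    · intro p0 p1 h0
      by_cases hex : ∃ p' : V → Fin 3 → ℝ, RigidOn H U p'
      · have h1 : InfRigid (H.induce U) (fun x : U => p0 x) :=
          (rigidOn_iff_induce H U p0).1 (h0 hex)
        refine (TA.infRigid_good (H.induce U) (fun x : U => p0 x) (fun x : U => p1 x) h1).subset ?_
        intro s hs
        rw [Set.mem_ofPred_eq] at hs ⊢
        intro hc
        apply hs
        intro _
        rw [rigidOn_iff_induce]
        exact hc
      · refine Set.finite_empty.subset ?_
        intro s hs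
        exact absurd (fun h => absurd h hex) hs
    · intro p0 p1 h0
      by_cases hx : Function.Injective x
      · refine (TA.affine_good x p0 p1 (h0 hx)).subset ?_
        intro s hs
        rw [Set.mem_ofPred_eq] at hs ⊢
        intro hc
        apply hs
        intro _
        exact hc
      · refine Set.finite_empty.subset ?_
        intro s hs
        exact absurd (fun h => absurd h hx) hs
  · rintro (⟨⟩ | G | ⟨H, U⟩ | ⟨n, x⟩)
    · obtain ⟨p, hp⟩ := exists_bdB β F
      exact ⟨p, hp.le⟩
    · exact exists_min G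
    · by_cases hex : ∃ p' : V → Fin 3 → ℝ, RigidOn H U p'
      · obtain ⟨p', hp'⟩ := hex
        exact ⟨p', fun _ => hp'⟩
      · exact ⟨0, fun h => absurd h hex⟩
    · by_cases hx : Function.Injective x
      · obtain ⟨p, hp⟩ := TA.affine_sat (d := 3) (by have := n.2; omega) x hx
        exact ⟨p, fun _ => hp⟩
      · exact ⟨0, fun h => absurd h hx⟩

end place

section link

variable {V B : Type} [Fintype V] [Fintype B]

open Classical in
/-- the edges between different parts -/
noncomputable def cE (G : SimpleGraph V) (β : V → B) : Finset (Sym2 V) :=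
  univ.filter fun e => e ∈ G.edgeSet ∧ ¬ ∀ u ∈ e, ∀ v ∈ e, β u = β v

omit [Fintype B] in
theorem mem_cE {G : SimpleGraph V} {β : V → B} {u v : V} :
    s(u, v) ∈ cE G β ↔ G.Adj u v ∧ β u ≠ β v := by
  classical
  unfold cE
  rw [Finset.mem_filter]
  constructor
  · rintro ⟨-, h1, h2⟩
    refine ⟨h1, fun h => h2 ?_⟩
    intro a ha b hb
    rcases Sym2.mem_iff.1 ha with rfl | rfl <;> rcases Sym2.mem_iff.1 hb with rfl | rfl
    · rfl
    · exact h
    · exact h.symm
    · rfl
  · rintro ⟨h1, h2⟩
    exact ⟨Finset.mem_univ _, h1, fun h => h2 (h u (Sym2.mem_mk_left _ _) v (Sym2.mem_mk_right _ _))⟩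

open Classical in
/-- the vertices of a part -/
noncomputable def pt (β : V → B) (b : B) : Finset V := univ.filter fun v => β v = b

omit [Fintype B] in
theorem mem_pt {β : V → B} {b : B} {v : V} : v ∈ pt β b ↔ β v = b := by
  classical
  unfold pt
  rw [Finset.mem_filter]
  exact ⟨fun h => h.2, fun h => ⟨Finset.mem_univ _, h⟩⟩

omit [Fintype V] [Fintype B] in
theorem dot_Psi (β : V → B) (p : V → Fin 3 → ℝ) (n : B → Fin 6 → ℝ) (u v : V) :
    (p u - p v) ⬝ᵥ (Psi β p n u - Psi β p n v) =
      pr (n (β u) - n (β v)) (hom p u) (hom p v) := by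
  simp only [dotProduct, Fin.sum_univ_three, Pi.sub_apply, Psi_apply]
  simp [ev, hom, pr]
  ring

omit [Fintype B] in
theorem Mot_eq {p : V → Fin 3 → ℝ} (hp : MG p) (G : SimpleGraph V) (β : V → B)
    (hrig : ∀ b, GenRigid 3 (G.induce {v | β v = b})) :
    Pool.Agent.H789R5.Mot G p =
      LinearMap.range (Psi β p ∘ₗ (BM β (cE G β) (hom p)).subtype) := by
  apply le_antisymm
  · intro q hq
    rw [Pool.Agent.H789R5.mem_mot] at hq
    have hr : ∀ b : B, ∃ (A : Matrix (Fin 3) (Fin 3) ℝ) (w : Fin 3 → ℝ), A.transpose = -A ∧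
        ∀ v ∈ {v | β v = b}, q v = A.mulVec (p v) + w := by
      intro b
      exact (hp.toGen.genRigid_induce_iff G {v | β v = b}).1 (hrig b) q
        (fun u _ v _ huv => hq u v huv)
    choose A b hA hb using hr
    set n : B → Fin 6 → ℝ := fun c => ![A c 0 1, A c 0 2, b c 0, A c 1 2, b c 1, b c 2] with hn
    have hval : Psi β p n = q := by
      funext v i
      rw [Psi_apply, hb (β v) v rfl]
      have e : ∀ i j, A (β v) j i = - A (β v) i j := by
        intro i j
        have := congrFun (congrFun (hA (β v)) i) j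
        simpa using this
      have e00 := e 0 0
      have e11 := e 1 1
      have e22 := e 2 2
      have e01 := e 0 1
      have e02 := e 0 2
      have e12 := e 1 2
      have f00 : A (β v) 0 0 = 0 := by linarith
      have f11 : A (β v) 1 1 = 0 := by linarith
      have f22 : A (β v) 2 2 = 0 := by linarith
      fin_cases i <;> simp [hn, ev, hom, Matrix.mulVec, dotProduct, Fin.sum_univ_three, f00, f11,
        f22, e01, e02, e12]
      all_goals ring
    refine ⟨⟨n, ?_⟩, hval⟩
    intro u v huv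
    rw [← dot_Psi, hval]
    exact hq u v (mem_cE.1 huv).1
  · rintro q ⟨n, rfl⟩
    rw [Pool.Agent.H789R5.mem_mot]
    intro u v huv
    change (p u - p v) ⬝ᵥ (Psi β p n u - Psi β p n v) = 0
    rw [dot_Psi]
    by_cases h : β u = β v
    · rw [h, sub_self, pr_zero]
    · exact n.2 u v (mem_cE.2 ⟨huv, h⟩)

theorem mo_eq {p : V → Fin 3 → ℝ} (hp : MG p) (G : SimpleGraph V) (β : V → B)
    (hrig : ∀ b, GenRigid 3 (G.induce {v | β v = b})) :
    bdB β (cE G β) p + ∑ b, cst (pt β b).card = mo G p + 6 * Fintype.card B := by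
  have h1 := finrank_inf_ker (BM β (cE G β) (hom p)) (Psi β p)
  rw [← Mot_eq hp G β hrig] at h1
  have h2 : BM β (cE G β) (hom p) ⊓ LinearMap.ker (Psi β p) =
      piSub fun b => KT (pt β b) (hom p) := by
    ext n
    rw [Submodule.mem_inf, LinearMap.mem_ker, Psi_zero_iff]
    constructor
    · rintro ⟨-, h2⟩ b v hv
      rw [← mem_pt.1 hv]
      exact h2 v
    · intro h
      have h3 : ∀ v, ev (n (β v)) (hom p v) = 0 := fun v => h (β v) v (mem_pt.2 rfl)
      refine ⟨fun u v _ => ?_, h3⟩
      rw [pr_sub, pr_eq_zero_of_ev (h3 u), pr_swap, pr_eq_zero_of_ev (h3 v)]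
      ring
  rw [h2, finrank_piSub] at h1
  have h3 : ∑ b, finrank ℝ (KT (pt β b) (hom p)) + ∑ b, cst (pt β b).card =
      6 * Fintype.card B := by
    rw [← Finset.sum_add_distrib, Finset.sum_congr rfl fun c _ => finrank_KT_hom hp _]
    simp [mul_comm]
  have h4 : bdB β (cE G β) p = finrank ℝ (BM β (cE G β) (hom p)) := rfl
  have h5 : mo G p = finrank ℝ (Pool.Agent.H789R5.Mot G p) := rfl
  omega

/-- the generic rank in terms of the system of bars -/
theorem genRank_gb (G : SimpleGraph V) (β : V → B)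
    (hrig : ∀ b, GenRigid 3 (G.induce {v | β v = b})) :
    genRank 3 G + gb β (cE G β) = ∑ b, rho (pt β b).card + 6 * Fintype.card B := by
  classical
  obtain ⟨p, hp, hbd⟩ := exists_placeB β (cE G β)
  have h1 := mo_eq hp G β hrig
  have h2 := genRank_add hp G
  have h3 : ∑ b, rho (pt β b).card + ∑ b, cst (pt β b).card = 3 * Fintype.card V := by
    rw [← Finset.sum_add_distrib, Finset.sum_congr rfl fun b _ => rho_add _, ← Finset.mul_sum]
    congr 1
    rw [← Finset.card_univ, Finset.card_eq_sum_card_fiberwise (f := β) (t := univ)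
      (fun _ _ => Finset.mem_univ _)]
    rfl
  omega

omit [Fintype B] in
theorem cap_cE (G : SimpleGraph V) (β : V → B)
    (hcap : ∀ v, {w | G.Adj v w ∧ β w ≠ β v}.ncard ≤ 2) : Cap (cE G β) := by
  classical
  intro v
  refine le_trans ?_ (hcap v)
  have h1 : {w | G.Adj v w ∧ β w ≠ β v} =
      ((univ.filter fun w => G.Adj v w ∧ β w ≠ β v : Finset V) : Set V) := by
    ext w
    simp
  rw [h1, Set.ncard_coe_finset]
  refine Finset.card_le_card_of_surjOn (fun w => s(v, w)) ?_
  intro e he
  rw [Finset.mem_coe, Finset.mem_filter] at he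
  obtain ⟨h2, w, rfl⟩ := he
  rw [mem_cE] at h2
  exact ⟨w, by simpa using ⟨h2.1, h2.2.symm⟩, rfl⟩

omit [Fintype V] in
/-- the bound by a partition of the set of bodies -/
theorem gb_lower (β : V → B) (F : Finset (Sym2 V)) (r : Setoid B) :
    6 * Nat.card (Quotient r) ≤ gb β F + (crs (Quotient.mk r ∘ β) F).card := by
  classical
  have h1 := finrank_pl_le (q := Quotient.mk r) Quotient.mk_surjective β F (gx V)
  rw [← BM_cross (Quotient.mk r ∘ β) (gx V) (crs_subset _ F)
    (fun u v huv hne => mem_crs'.2 ⟨huv, hne⟩)] at h1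
  have h2 := le_card (Quotient.mk r ∘ β) (crs (Quotient.mk r ∘ β) F) (gx V)
  rw [Nat.card_eq_fintype_card]
  unfold gb GB
  omega

/-- equality for the partition into the classes of bodies which move together -/
theorem gb_upper (β : V → B) (F : Finset (Sym2 V)) (hcap : Cap F) :
    ∃ r : Setoid B, 6 * Nat.card (Quotient r) = gb β F + (crs (Quotient.mk r ∘ β) F).card := by
  classical
  refine ⟨mt β F, ?_⟩
  have h1 := sparse_mt (N := F.card + 1) (fun m _ => main_all m) β F hcap (by omega)
  have h2 := main_all _ V (Quotient (mt β F)) (Quotient.mk (mt β F) ∘ β) _ rfl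
    (hcap.mono (crs_subset _ F)) h1
  rw [gb_mt] at h2
  rw [Nat.card_eq_fintype_card]
  omega

end link

end Pool.Agent.Y530.BB
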